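import Mathlib
import Pool.Agent.Work.MP_5e5ff1_ag.T.Defs

/-! Parabolic bundles on the line with the points `0, 1, ∞`, Fuchsian systems, slit domains and
multivalued matrix functions. Definitions for the unitarity theorem (Mehta and Seshadri).

CONVENTIONS. `γ x` (`x = 0, 1, 2` for the points `0, 1, ∞`) is an invertible constant matrix; the
rows of `γ x * f` are the coordinates of the vector `f` in the flag basis at `x`, i.e. the flag at
`x` is spanned by the first columns of `(γ x)⁻¹`. The weights `w x i` are growth exponents: the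
`i`-th row of `γ x * G` is `O(|ζ|^(w x i))` in the local coordinate `ζ` at `x`. -/

open Matrix Polynomial
open scoped ComplexConjugate ComplexOrder

namespace Pool.Agent.MSU

/-! ### stability -/

/-- all flags are given by invertible matrices -/
def GU {r : ℕ} (γ : Fin 3 → Matrix (Fin r) (Fin r) ℂ) : Prop := ∀ x, IsUnit (γ x).det

/-- weights: strictly increasing in a window of length smaller than one -/
def Win {r : ℕ} (w : Fin 3 → Fin r → ℝ) : Prop :=
  (∀ x, StrictMono (w x)) ∧ ∀ x i j, w x j - w x i < 1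

/-- the minor with rows `J` of `γ W` -/
noncomputable def mn {r k : ℕ} (γ : Matrix (Fin r) (Fin r) ℂ) (W : Matrix (Fin r) (Fin k) ℂ[X])
    (J : Fin k → Fin r) : ℂ[X] := ((γ.map C * W).submatrix J id).det

/-- Parabolic stability (degree zero) of the bundle which is trivial on the affine line, has the
flags `γ 0`, `γ 1` at `0`, `1`, the norm given by `γ 2` at `∞`, and the growth exponents `w`:
minus the parabolic degree of every proper subbundle (spanned by the columns of `W`) is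
positive. -/
def StG {r : ℕ} (γ : Fin 3 → Matrix (Fin r) (Fin r) ℂ) (w : Fin 3 → Fin r → ℝ) : Prop :=
  ∀ k : ℕ, 0 < k → k < r → ∀ W : Matrix (Fin r) (Fin k) ℂ[X],
    Pool.Agent.Work.MP_5e5ff1_ag.T.IsSub W →
    ∃ J : Fin 3 → Fin k → Fin r, (∀ x, mn (γ x) W (J x) ≠ 0) ∧
      0 < ∑ x, ∑ a, w x (J x a) - ((mn (γ 0) W (J 0)).rootMultiplicity 0 : ℝ)
        - ((mn (γ 1) W (J 1)).rootMultiplicity 1 : ℝ) + ((mn (γ 2) W (J 2)).natDegree : ℝ)

/-! ### domains and local coordinates -/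

/-- the upper and the lower half plane joined through `(-∞,0)`, `(0,1)`, `(1,∞)` -/
def V (j : Fin 3) : Set ℂ :=
  {z | z.im ≠ 0 ∨ (j = 0 ∧ z.re < 0) ∨ (j = 1 ∧ 0 < z.re ∧ z.re < 1) ∨ (j = 2 ∧ 1 < z.re)}

/-- base points of the three domains -/
noncomputable def bp (j : Fin 3) : ℂ := if j = 0 then -1 else if j = 1 then 1 / 2 else 2

/-- plane slit along the positive reals -/
def Sa : Set ℂ := {z | z.im ≠ 0 ∨ z.re < 0}

/-- plane slit along the negative reals -/
def Sb : Set ℂ := {z | z.im ≠ 0 ∨ 0 < z.re}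

/-- the local coordinate at the puncture `x` (`0`, `1`, `∞` for `x = 0, 1, 2`): `z = cz x ζ`.
For `0 < |ζ| < 1`, `cz x` maps `Sa` to `V x` and `Sb` to `V (x + 1)`. -/
noncomputable def cz (x : Fin 3) (ζ : ℂ) : ℂ := if x = 0 then ζ else if x = 1 then 1 + ζ else -ζ⁻¹

/-- compact complement of the three discs of radius one half -/
def KK : Set ℂ := {z | 1 / 2 ≤ ‖z‖ ∧ 1 / 2 ≤ ‖z - 1‖ ∧ ‖z‖ ≤ 2}

/-- local sub-mean value property -/
def LSM (f : ℂ → ℝ) (z : ℂ) : Prop :=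
  ∃ r0 > 0, ∀ r, 0 < r → r < r0 → f z ≤ Real.circleAverage f z r

/-! ### the Fuchsian system -/

section sys

variable {ι : Type} [Fintype ι] [DecidableEq ι]

/-- the matrix of the system -/
noncomputable def AB (B : Fin 3 → Matrix ι ι ℂ) (z : ℂ) : Matrix ι ι ℂ :=
  z⁻¹ • B 0 + (z - 1)⁻¹ • B 1

/-- fundamental solution on `V j` normalised at `i` -/
def Sol (B : Fin 3 → Matrix ι ι ℂ) (j : Fin 3) (Y : ℂ → Matrix ι ι ℂ) : Prop :=
  Y Complex.I = 1 ∧ ∀ z ∈ V j, ∀ a b, HasDerivAt (fun s => Y s a b) ((AB B z * Y z) a b) z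

open Classical in
/-- the fundamental solution (chosen) -/
noncomputable def YY (B : Fin 3 → Matrix ι ι ℂ) (j : Fin 3) : ℂ → Matrix ι ι ℂ :=
  if h : ∃ Y, Sol B j Y then h.choose else 0

/-- transport from `i` to `-i` through the interval of `V j` -/
noncomputable def PP (B : Fin 3 → Matrix ι ι ℂ) (j : Fin 3) : Matrix ι ι ℂ :=
  YY B j (-Complex.I)

/-- `W = ∫ Y⁻¹ (AB Bd) Y`, the logarithmic derivative of the fundamental solution in the
direction `Bd` -/
def IsW (B Bd : Fin 3 → Matrix ι ι ℂ) (j : Fin 3) (W : ℂ → Matrix ι ι ℂ) : Prop :=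
  W Complex.I = 0 ∧ ∀ z ∈ V j, ∀ a b,
    HasDerivAt (fun s => W s a b) (((YY B j z)⁻¹ * AB Bd z * YY B j z) a b) z

end sys

/-- the residue at `x` in the flag basis -/
noncomputable def Rs {r : ℕ} (γ B : Fin 3 → Matrix (Fin r) (Fin r) ℂ) (x : Fin 3) :
    Matrix (Fin r) (Fin r) ℂ := γ x * B x * (γ x)⁻¹

/-- local data: Fuchsian system whose residues preserve the flags (upper triangular in the flag
bases), with given real parts of the diagonal entries -/
def LD {r : ℕ} (γ : Fin 3 → Matrix (Fin r) (Fin r) ℂ) (w : Fin 3 → Fin r → ℝ)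
    (B : Fin 3 → Matrix (Fin r) (Fin r) ℂ) : Prop :=
  B 0 + B 1 + B 2 = 0 ∧ ∀ x, (∀ a b, b < a → Rs γ B x a b = 0) ∧ ∀ a, (Rs γ B x a a).re = w x a

/-- the monodromy is unitary: the Hermitian forms `H` at the point `i` and `Hm` at the point `-i`
correspond to each other under the three transports -/
def UN {r : ℕ} (B : Fin 3 → Matrix (Fin r) (Fin r) ℂ) (H Hm : Matrix (Fin r) (Fin r) ℂ) : Prop :=
  H.PosDef ∧ Hm.IsHermitian ∧ ∀ j, (PP B j)ᴴ * Hm * PP B j = H

/-- local normal form at the puncture `x` with connection matrix `φ`, in the coordinate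
`τ = log ζ`; first domain with `0 < Im τ < 2π`, second domain with `-π < Im τ < π` -/
def LAat {r : ℕ} (γ B : Fin 3 → Matrix (Fin r) (Fin r) ℂ) (x : Fin 3)
    (φ : Matrix (Fin r) (Fin r) ℂ) : Prop :=
  IsUnit φ.det ∧ ∃ δ C a : ℝ, 0 < δ ∧ ∀ τ : ℂ, τ.re < a → ∀ i j,
    (0 < τ.im → τ.im < 2 * Real.pi →
      ‖Complex.exp (-τ * Rs γ B x i i) * ((γ x * YY B x (cz x (Complex.exp τ))) i j) - φ i j‖
        ≤ C * Real.exp (δ * τ.re)) ∧
    (-Real.pi < τ.im → τ.im < Real.pi →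
      ‖Complex.exp (-τ * Rs γ B x i i) * ((γ x * YY B (x + 1) (cz x (Complex.exp τ))) i j)
        - φ i j‖ ≤ C * Real.exp (δ * τ.re))

/-! ### multivalued matrix functions -/

/-- a multivalued holomorphic matrix on the plane minus `0, 1` with unitary monodromy, given by
its branches on the three domains, which agree on the upper half plane -/
structure MV {r d : ℕ} (G : Fin 3 → ℂ → Matrix (Fin r) (Fin d) ℂ)
    (Q : Fin 3 → Matrix (Fin d) (Fin d) ℂ) : Prop where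
  diff : ∀ j a b, DifferentiableOn ℂ (fun z => G j z a b) (V j)
  plus : ∀ (j j' : Fin 3) (z : ℂ), 0 < z.im → G j z = G j' z
  minus : ∀ (j : Fin 3) (z : ℂ), z.im < 0 → G (j + 1) z = G j z * Q j
  unit : ∀ j, (Q j)ᴴ * Q j = 1

/-- the rows in the flag bases are bounded by the weights -/
def RowBd {r d : ℕ} (γ : Fin 3 → Matrix (Fin r) (Fin r) ℂ) (w : Fin 3 → Fin r → ℝ)
    (G : Fin 3 → ℂ → Matrix (Fin r) (Fin d) ℂ) : Prop :=
  ∀ x, ∃ C ρ : ℝ, 0 < ρ ∧ ρ ≤ 1 / 2 ∧ ∀ ζ : ℂ, ‖ζ‖ < ρ →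
    (ζ ∈ Sa → ∀ a b, ‖(γ x * G x (cz x ζ)) a b‖ ≤ C * ‖ζ‖ ^ (w x a)) ∧
    (ζ ∈ Sb → ∀ a b, ‖(γ x * G (x + 1) (cz x ζ)) a b‖ ≤ C * ‖ζ‖ ^ (w x a))

/-- the unitary solution on the parabolic bundle `(γ, w)`: an invertible multivalued matrix
function with unitary monodromy `Q x` (`x = 0, 1, 2`), with the growth `w` and with the
eigenvalues `exp (-2π i w x j)` of the local monodromy `Q x` -/
def SolG {r : ℕ} (γ : Fin 3 → Matrix (Fin r) (Fin r) ℂ) (w : Fin 3 → Fin r → ℝ) : Prop :=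
  ∃ (G : Fin 3 → ℂ → Matrix (Fin r) (Fin r) ℂ) (Q : Fin 3 → Matrix (Fin r) (Fin r) ℂ),
    MV G Q ∧ RowBd γ w G ∧ (∀ j, ∀ z ∈ V j, IsUnit (G j z).det) ∧
    ∀ x, (Q x).charpoly =
      ∏ j, (X - C (Complex.exp (-(2 * Real.pi * Complex.I * (w x j : ℂ)))))

/-! ### the equations -/

/-- Hermitian matrix with given real coordinates -/
noncomputable def hm {r : ℕ} (S : Fin r → Fin r → ℝ) : Matrix (Fin r) (Fin r) ℂ :=
  Matrix.of fun a b => (((S a b + S b a) / 2 : ℝ) : ℂ) + (((S a b - S b a) / 2 : ℝ) : ℂ) * Complex.I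

/-- real coordinates of a Hermitian matrix -/
def code {r : ℕ} (H : Matrix (Fin r) (Fin r) ℂ) : Fin r → Fin r → ℝ :=
  fun a b => (H a b).re + (H a b).im

/-- scaled transport: `PP (t β) j = 1 + t ZZ j t β` -/
noncomputable def ZZ {r : ℕ} (j : Fin 3) (t : ℝ) (β : Fin 3 → Matrix (Fin r) (Fin r) ℂ) :
    Matrix (Fin r) (Fin r) ℂ :=
  (PP (ι := Fin r ⊕ Fin r) (fun x => fromBlocks ((t : ℂ) • β x) (β x) 0 0) j).toBlocks₁₂

/-- scaled unitarity equation: `(PP^* (H + t K) PP - H) / t` with `PP = 1 + t Z` -/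
noncomputable def E2 {r : ℕ} (t : ℝ) (H K Z : Matrix (Fin r) (Fin r) ℂ) :
    Matrix (Fin r) (Fin r) ℂ :=
  Zᴴ * H + H * Z + K + (t : ℂ) • (Zᴴ * K + K * Z + Zᴴ * H * Z) + ((t : ℂ) ^ 2) • (Zᴴ * K * Z)

/-- flag and weight equations at the puncture `x`, normalisation of the trace included -/
noncomputable def E3 {r : ℕ} (γ : Fin 3 → Matrix (Fin r) (Fin r) ℂ) (w : Fin 3 → Fin r → ℝ)
    (β : Fin 3 → Matrix (Fin r) (Fin r) ℂ) (h : Fin r → Fin r → ℝ) (x : Fin 3) :
    Fin r → Fin r → ℝ :=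
  fun a b => if b < a then (Rs γ β x a b).re else
    if a < b then (Rs γ β x b a).im else (Rs γ β x a a).re - w x a + (∑ c, h c c - 1)

/-- unknowns `(β, h, k)` -/
abbrev XT (r : ℕ) : Type := (Fin 3 → Fin r → Fin r → ℂ) × (Fin r → Fin r → ℝ) × (Fin r → Fin r → ℝ)

/-- values of the equations -/
abbrev YT (r : ℕ) : Type :=
  (Fin r → Fin r → ℂ) × (Fin 3 → Fin r → Fin r → ℝ) × (Fin 3 → Fin r → Fin r → ℝ)

/-- the residues of an unknown -/
def bt {r : ℕ} (x : XT r) : Fin 3 → Matrix (Fin r) (Fin r) ℂ := fun y => Matrix.of (x.1 y)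

/-- the system of equations with parameter `t` -/
noncomputable def FF {r : ℕ} (γ : Fin 3 → Matrix (Fin r) (Fin r) ℂ) (w : Fin 3 → Fin r → ℝ)
    (u : ℝ × XT r) : YT r :=
  (fun a b => (bt u.2 0 + bt u.2 1 + bt u.2 2) a b,
   fun j => code (E2 u.1 (hm u.2.2.1) (hm u.2.2.2) (ZZ j u.1 (bt u.2))),
   fun x => E3 γ w (bt u.2) u.2.2.1 x)

/-- `x` is a solution with parameter `t` -/
def IsS {r : ℕ} (γ : Fin 3 → Matrix (Fin r) (Fin r) ℂ) (w : Fin 3 → Fin r → ℝ) (t : ℝ)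
    (x : XT r) : Prop := FF γ w (t, x) = 0 ∧ (hm x.2.1).PosDef

/-- values of `∫ dz / z` from `i` to `-i` -/
noncomputable def aa (j : Fin 3) : ℂ := if j = 0 then Real.pi * Complex.I else -(Real.pi * Complex.I)

/-- values of `∫ dz / (z - 1)` from `i` to `-i` -/
noncomputable def bb (j : Fin 3) : ℂ :=
  if j = 2 then -(3 * Real.pi / 2 * Complex.I) else Real.pi / 2 * Complex.I

/-! ### the additive problem -/

/-- jumps of the weights, `0` at the first index -/
noncomputable def cf {r : ℕ} (w : Fin r → ℝ) (l : Fin r) : ℝ :=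
  if h : 0 < (l : ℕ) then w l - w ⟨(l : ℕ) - 1, by omega⟩ else 0

/-- the top weight (`0` if `r = 0`) -/
noncomputable def tw {r : ℕ} (w : Fin r → ℝ) : ℝ :=
  if h : 0 < r then w ⟨r - 1, by omega⟩ else 0

/-- the first `l` columns of the inverse of `γ` -/
noncomputable def fc {r : ℕ} (γ : Matrix (Fin r) (Fin r) ℂ) (l : Fin r) :
    Matrix (Fin r) (Fin (l : ℕ)) ℂ :=
  (γ⁻¹).submatrix id (Fin.castLE l.isLt.le)

/-- the functional of Kempf and Ness -/
noncomputable def PsiF {r : ℕ} (γ : Fin 3 → Matrix (Fin r) (Fin r) ℂ) (w : Fin 3 → Fin r → ℝ)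
    (h : Matrix (Fin r) (Fin r) ℂ) : ℝ :=
  ∑ y, ∑ l, cf (w y) l * Real.log ((fc (γ y) l)ᴴ * h * fc (γ y) l).det.re
    - (∑ y, tw (w y)) * Real.log h.det.re

end Pool.Agent.MSU
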