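import Mathlib
import Pool.Agent.Work.MP_5e5ff1_ag.Unit.Defs

/-! Elementary geometry of the three slit domains and of the charts at the punctures. -/

open Matrix Polynomial Complex

namespace Pool.Agent.MSU

lemma mem_V_of_im {z : ℂ} (j : Fin 3) (h : z.im ≠ 0) : z ∈ V j := Or.inl h

lemma upper_mem {z : ℂ} (j : Fin 3) (h : 0 < z.im) : z ∈ V j := Or.inl h.ne'

lemma lower_mem {z : ℂ} (j : Fin 3) (h : z.im < 0) : z ∈ V j := Or.inl h.ne

lemma I_mem (j : Fin 3) : I ∈ V j := Or.inl (by simp)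

lemma negI_mem (j : Fin 3) : -I ∈ V j := Or.inl (by simp)

lemma V_ne {z : ℂ} {j : Fin 3} (h : z ∈ V j) : z ≠ 0 ∧ z ≠ 1 := by
  constructor
  · rintro rfl
    rcases h with h | h | h | h
    · simp at h
    · simp at h
    · simp at h
    · have := h.2; norm_num at this
  · rintro rfl
    rcases h with h | h | h | h
    · simp at h
    · have := h.2; norm_num at this
    · simp at h
    · simp at h

lemma V_cover {z : ℂ} (h0 : z ≠ 0) (h1 : z ≠ 1) : ∃ j, z ∈ V j := by
  by_cases him : z.im = 0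
  · have hz : z = (z.re : ℂ) := by
      apply Complex.ext <;> simp [him]
    have h0' : z.re ≠ 0 := by
      intro h; apply h0; rw [hz, h]; simp
    have h1' : z.re ≠ 1 := by
      intro h; apply h1; rw [hz, h]; simp
    rcases lt_trichotomy z.re 0 with h | h | h
    · exact ⟨0, Or.inr (Or.inl ⟨rfl, h⟩)⟩
    · exact absurd h h0'
    · rcases lt_trichotomy z.re 1 with h2 | h2 | h2
      · exact ⟨1, Or.inr (Or.inr (Or.inl ⟨rfl, h, h2⟩))⟩
      · exact absurd h2 h1'
      · exact ⟨2, Or.inr (Or.inr (Or.inr ⟨rfl, h2⟩))⟩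
  · exact ⟨0, Or.inl him⟩

lemma V_open (j : Fin 3) : IsOpen (V j) := by
  have h1 : IsOpen {z : ℂ | z.im ≠ 0} := isOpen_ne_fun Complex.continuous_im continuous_const
  have h2 : IsOpen {z : ℂ | j = 0 ∧ z.re < 0} := by
    by_cases h : j = 0
    · simpa [h] using isOpen_lt Complex.continuous_re continuous_const
    · simp [h]
  have h3 : IsOpen {z : ℂ | j = 1 ∧ 0 < z.re ∧ z.re < 1} := by
    by_cases h : j = 1
    · have h5 : {z : ℂ | j = 1 ∧ 0 < z.re ∧ z.re < 1} = {z : ℂ | 0 < z.re} ∩ {z : ℂ | z.re < 1} := by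
        ext z; simp [h]
      rw [h5]
      exact (isOpen_lt continuous_const Complex.continuous_re).inter
        (isOpen_lt Complex.continuous_re continuous_const)
    · simp [h]
  have h4 : IsOpen {z : ℂ | j = 2 ∧ 1 < z.re} := by
    by_cases h : j = 2
    · simpa [h] using isOpen_lt continuous_const Complex.continuous_re
    · simp [h]
  exact h1.union (h2.union (h3.union h4))

lemma bp_mem (j : Fin 3) : bp j ∈ V j := by
  fin_cases j
  · exact Or.inr (Or.inl ⟨rfl, by simp [bp]⟩)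
  · exact Or.inr (Or.inr (Or.inl ⟨rfl, by simp [bp], by simp [bp]; norm_num⟩))
  · exact Or.inr (Or.inr (Or.inr ⟨rfl, by simp [bp]⟩))

lemma bp_re (j : Fin 3) : (bp j).re = if j = 0 then -1 else if j = 1 then 1 / 2 else 2 := by
  fin_cases j <;> simp [bp]

lemma bp_im (j : Fin 3) : (bp j).im = 0 := by
  fin_cases j <;> simp [bp]

lemma V_star (j : Fin 3) : StarConvex ℝ (bp j) (V j) := by
  rw [starConvex_iff_forall_pos (bp_mem j)]
  intro z hz a b ha hb hab
  have him : (a • bp j + b • z).im = b * z.im := by simp [bp_im]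
  have hre : (a • bp j + b • z).re = a * (bp j).re + b * z.re := by simp
  rcases hz with h | ⟨rfl, h⟩ | ⟨rfl, h, h'⟩ | ⟨rfl, h⟩
  · left
    rw [him]
    exact mul_ne_zero hb.ne' h
  · right; left
    refine ⟨rfl, ?_⟩
    rw [hre, bp_re]
    simp only [if_true]
    nlinarith
  · right; right; left
    refine ⟨rfl, ?_, ?_⟩
    · rw [hre, bp_re]; norm_num
      nlinarith
    · rw [hre, bp_re]; norm_num
      nlinarith
  · right; right; right
    refine ⟨rfl, ?_⟩
    have h3 : (bp 2).re = 2 := by simp [bp]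
    rw [hre, h3]
    nlinarith

lemma V_preconnected (j : Fin 3) : IsPreconnected (V j) :=
  ((V_star j).isPathConnected (bp_mem j)).isConnected.isPreconnected

lemma cz_zero (ζ : ℂ) : cz 0 ζ = ζ := by simp [cz]

lemma cz_one (ζ : ℂ) : cz 1 ζ = 1 + ζ := by simp [cz]

lemma cz_two (ζ : ℂ) : cz 2 ζ = -ζ⁻¹ := by simp [cz]

lemma neg_inv_im (ζ : ℂ) : (-ζ⁻¹).im = ζ.im / normSq ζ := by
  rw [neg_im, inv_im]; ring

lemma neg_inv_re (ζ : ℂ) : (-ζ⁻¹).re = -(ζ.re / normSq ζ) := by
  rw [neg_re, inv_re]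

lemma cz_im_pos (x : Fin 3) {ζ : ℂ} (h : 0 < ζ.im) : 0 < (cz x ζ).im := by
  fin_cases x
  · simpa [cz] using h
  · simpa [cz] using h
  · have h0 : ζ ≠ 0 := by rintro rfl; simp at h
    have : (cz 2 ζ).im = ζ.im / normSq ζ := by rw [cz_two, neg_inv_im]
    change 0 < (cz 2 ζ).im
    rw [this]
    exact div_pos h (normSq_pos.mpr h0)

lemma cz_im_neg (x : Fin 3) {ζ : ℂ} (h : ζ.im < 0) : (cz x ζ).im < 0 := by
  fin_cases x
  · simpa [cz] using h
  · simpa [cz] using h
  · have h0 : ζ ≠ 0 := by rintro rfl; simp at h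
    have : (cz 2 ζ).im = ζ.im / normSq ζ := by rw [cz_two, neg_inv_im]
    change (cz 2 ζ).im < 0
    rw [this]
    exact div_neg_of_neg_of_pos h (normSq_pos.mpr h0)

lemma cz_mem_a (x : Fin 3) {ζ : ℂ} (hn : ‖ζ‖ < 1) (h : ζ ∈ Sa) : cz x ζ ∈ V x := by
  by_cases him : ζ.im = 0
  · have hre : ζ.re < 0 := by
      rcases h with h | h
      · exact absurd him h
      · exact h
    have hz : ζ = (ζ.re : ℂ) := by apply Complex.ext <;> simp [him]
    have habs : |ζ.re| < 1 := lt_of_le_of_lt (Complex.abs_re_le_norm ζ) hn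
    rw [abs_lt] at habs
    fin_cases x
    · right; left; exact ⟨rfl, by simpa [cz] using hre⟩
    · right; right; left
      refine ⟨rfl, ?_, ?_⟩
      · simp [cz]; linarith [habs.1]
      · simp [cz]; linarith
    · right; right; right
      refine ⟨rfl, ?_⟩
      change 1 < (cz 2 ζ).re
      have hns : normSq ζ = ζ.re * ζ.re := by rw [normSq_apply, him]; ring
      have h2 : ζ.re * ζ.re > 0 := mul_pos_of_neg_of_neg hre hre
      rw [cz_two, neg_inv_re, hns, ← neg_div, lt_div_iff₀ h2]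
      nlinarith [habs.1]
  · rcases lt_or_gt_of_ne him with h1 | h1
    · exact lower_mem x (cz_im_neg x h1)
    · exact upper_mem x (cz_im_pos x h1)

lemma cz_mem_b (x : Fin 3) {ζ : ℂ} (hn : ‖ζ‖ < 1) (h : ζ ∈ Sb) : cz x ζ ∈ V (x + 1) := by
  by_cases him : ζ.im = 0
  · have hre : 0 < ζ.re := by
      rcases h with h | h
      · exact absurd him h
      · exact h
    have habs : |ζ.re| < 1 := lt_of_le_of_lt (Complex.abs_re_le_norm ζ) hn
    rw [abs_lt] at habs
    fin_cases x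
    · right; right; left
      refine ⟨rfl, ?_, ?_⟩
      · simpa [cz] using hre
      · simpa [cz] using habs.2
    · right; right; right
      refine ⟨rfl, ?_⟩
      simp [cz]; linarith
    · right; left
      refine ⟨rfl, ?_⟩
      change (cz 2 ζ).re < 0
      have hns : normSq ζ = ζ.re * ζ.re := by rw [normSq_apply, him]; ring
      have h2 : ζ.re * ζ.re > 0 := mul_pos hre hre
      rw [cz_two, neg_inv_re, hns]
      have := div_pos hre h2
      linarith
  · rcases lt_or_gt_of_ne him with h1 | h1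
    · exact lower_mem _ (cz_im_neg x h1)
    · exact upper_mem _ (cz_im_pos x h1)

lemma Sa_ne {ζ : ℂ} (h : ζ ∈ Sa) : ζ ≠ 0 := by
  rintro rfl
  rcases h with h | h <;> simp at h

lemma Sb_ne {ζ : ℂ} (h : ζ ∈ Sb) : ζ ≠ 0 := by
  rintro rfl
  rcases h with h | h <;> simp at h

lemma Sa_open : IsOpen Sa :=
  (isOpen_ne_fun Complex.continuous_im continuous_const).union
    (isOpen_lt Complex.continuous_re continuous_const)

lemma Sb_open : IsOpen Sb :=
  (isOpen_ne_fun Complex.continuous_im continuous_const).union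
    (isOpen_lt continuous_const Complex.continuous_re)

/-- derivative of the chart -/
lemma cz_hasDerivAt (x : Fin 3) {ζ : ℂ} (h : ζ ≠ 0) :
    HasDerivAt (cz x) (if x = 2 then (ζ ^ 2)⁻¹ else 1) ζ := by
  fin_cases x
  · have : cz 0 = fun ζ => ζ := by funext ζ; exact cz_zero ζ
    change HasDerivAt (cz 0) _ ζ
    rw [this]
    simpa using hasDerivAt_id' ζ
  · have : cz 1 = fun ζ => 1 + ζ := by funext ζ; exact cz_one ζ
    change HasDerivAt (cz 1) _ ζ
    rw [this]
    simpa using (hasDerivAt_id' ζ).const_add 1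
  · have : cz 2 = fun ζ => -ζ⁻¹ := by funext ζ; exact cz_two ζ
    have h2 := (hasDerivAt_inv h).neg
    change HasDerivAt (cz 2) _ ζ
    rw [this]
    have h3 : (-fun y : ℂ => y⁻¹) = fun ζ => -ζ⁻¹ := rfl
    rw [h3, neg_neg] at h2
    simpa using h2

/-- the regular part of the system in the local coordinate at `x`: for `B 0 + B 1 + B 2 = 0`,
`AB B (cz x ζ) * (cz x)'(ζ) = ζ⁻¹ • B x + RR B x ζ` -/
noncomputable def RR {ι : Type} (B : Fin 3 → Matrix ι ι ℂ) (x : Fin 3) (ζ : ℂ) : Matrix ι ι ℂ :=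
  if x = 0 then (ζ - 1)⁻¹ • B 1 else if x = 1 then (1 + ζ)⁻¹ • B 0 else (1 + ζ)⁻¹ • B 1

lemma AB_chart {ι : Type} [Fintype ι] [DecidableEq ι] (B : Fin 3 → Matrix ι ι ℂ) (hB : B 0 + B 1 + B 2 = 0) (x : Fin 3)
    {ζ : ℂ} (h0 : ζ ≠ 0) (hn : ‖ζ‖ < 1) :
    (if x = 2 then (ζ ^ 2)⁻¹ else 1 : ℂ) • AB B (cz x ζ) = ζ⁻¹ • B x + RR B x ζ := by
  have hB2 : B 2 = -(B 0) - B 1 := by
    have : B 2 = (B 0 + B 1 + B 2) - B 0 - B 1 := by abel
    rw [this, hB]; abel
  have h1 : 1 + ζ ≠ 0 := by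
    intro h
    have : ζ = -1 := by linear_combination h
    rw [this] at hn; simp at hn
  have h2 : ζ - 1 ≠ 0 := by
    intro h
    have : ζ = 1 := by linear_combination h
    rw [this] at hn; simp at hn
  fin_cases x
  · ext i j
    simp [AB, RR, cz]
  · ext i j
    simp [AB, RR, cz]
    ring
  · ext i j
    have hB3 : B 2 i j = -(B 0 i j) - B 1 i j := by rw [hB2]; simp
    change ((if (2 : Fin 3) = 2 then (ζ ^ 2)⁻¹ else 1 : ℂ) • AB B (cz 2 ζ)) i j
      = (ζ⁻¹ • B 2 + RR B 2 ζ) i j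
    rw [Matrix.add_apply, Matrix.smul_apply, Matrix.smul_apply, hB3]
    have h3 : (-ζ⁻¹ - 1)⁻¹ = -(ζ * (1 + ζ)⁻¹) := by
      have h4 : -ζ⁻¹ - 1 = -((1 + ζ) * ζ⁻¹) := by field_simp; ring
      rw [h4, inv_neg, mul_inv, inv_inv]; ring
    have h5 : AB B (cz 2 ζ) i j = -ζ * B 0 i j - ζ * (1 + ζ)⁻¹ * B 1 i j := by
      rw [cz_two]
      simp only [AB, Matrix.add_apply, Matrix.smul_apply, smul_eq_mul, h3, inv_neg, inv_inv]
      ring
    have h6 : RR B 2 ζ i j = (1 + ζ)⁻¹ * B 1 i j := by simp [RR]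
    rw [h5, h6]
    simp only [if_true, smul_eq_mul]
    field_simp
    ring

/-! ### branches of the logarithms of `z` and `z - 1` on the three domains -/

/-- branch of `log z` on `V j`; on the upper half plane it does not depend on `j` -/
noncomputable def Lg0 (j : Fin 3) (z : ℂ) : ℂ :=
  if j = 0 then Complex.log (-z) + Real.pi * I else Complex.log z

/-- branch of `log (z - 1)` on `V j`; on the upper half plane it does not depend on `j` -/
noncomputable def Lg1 (j : Fin 3) (z : ℂ) : ℂ :=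
  if j = 2 then Complex.log (z - 1) else Complex.log (1 - z) + Real.pi * I

lemma neg_slit {z : ℂ} (h : z ∈ V 0) : -z ∈ slitPlane := by
  rcases h with h | ⟨-, h⟩ | ⟨h, -⟩ | ⟨h, -⟩
  · exact Or.inr (by simpa using h)
  · exact Or.inl (by simpa using h)
  · exact absurd h (by decide)
  · exact absurd h (by decide)

lemma slit_of_ne {z : ℂ} {j : Fin 3} (hj : j ≠ 0) (h : z ∈ V j) : z ∈ slitPlane := by
  rcases h with h | ⟨h, -⟩ | ⟨-, h, -⟩ | ⟨-, h⟩
  · exact Or.inr h
  · exact absurd h hj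
  · exact Or.inl h
  · exact Or.inl (by linarith)

lemma sub_one_slit {z : ℂ} (h : z ∈ V 2) : z - 1 ∈ slitPlane := by
  rcases h with h | ⟨h, -⟩ | ⟨h, -⟩ | ⟨-, h⟩
  · exact Or.inr (by simpa using h)
  · exact absurd h (by decide)
  · exact absurd h (by decide)
  · exact Or.inl (by simpa using h)

lemma one_sub_slit {z : ℂ} {j : Fin 3} (hj : j ≠ 2) (h : z ∈ V j) : 1 - z ∈ slitPlane := by
  rcases h with h | ⟨-, h⟩ | ⟨-, -, h⟩ | ⟨h, -⟩
  · exact Or.inr (by simpa using h)
  · exact Or.inl (by simp; linarith)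
  · exact Or.inl (by simpa using h)
  · exact absurd h hj

lemma Lg0_exp {j : Fin 3} {z : ℂ} (h : z ∈ V j) : Complex.exp (Lg0 j z) = z := by
  unfold Lg0
  split_ifs with hj
  · rw [Complex.exp_add, Complex.exp_log (neg_ne_zero.mpr (V_ne h).1), Complex.exp_pi_mul_I]
    ring
  · exact Complex.exp_log (V_ne h).1

lemma Lg1_exp {j : Fin 3} {z : ℂ} (h : z ∈ V j) : Complex.exp (Lg1 j z) = z - 1 := by
  unfold Lg1
  have h1 : z - 1 ≠ 0 := sub_ne_zero.mpr (V_ne h).2
  split_ifs with hj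
  · exact Complex.exp_log h1
  · rw [Complex.exp_add, Complex.exp_log (by rw [← neg_sub]; exact neg_ne_zero.mpr h1),
      Complex.exp_pi_mul_I]
    ring

lemma Lg0_deriv {j : Fin 3} {z : ℂ} (h : z ∈ V j) : HasDerivAt (Lg0 j) z⁻¹ z := by
  by_cases hj : j = 0
  · subst hj
    have h1 : Lg0 0 = fun z => Complex.log (-z) + Real.pi * I := by funext z; simp [Lg0]
    rw [h1]
    have h2 := ((hasDerivAt_id' z).neg.clog (neg_slit h)).add_const (Real.pi * I)
    have h3 : (-1 : ℂ) / (-fun x : ℂ => x) z = z⁻¹ := by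
      rw [Pi.neg_apply, neg_div_neg_eq, one_div]
    rw [h3] at h2
    exact h2
  · have h1 : Lg0 j = fun z => Complex.log z := by funext z; simp [Lg0, hj]
    rw [h1]
    exact Complex.hasDerivAt_log (slit_of_ne hj h)

lemma Lg1_deriv {j : Fin 3} {z : ℂ} (h : z ∈ V j) : HasDerivAt (Lg1 j) (z - 1)⁻¹ z := by
  by_cases hj : j = 2
  · subst hj
    have h1 : Lg1 2 = fun z => Complex.log (z - 1) := by funext z; simp [Lg1]
    rw [h1]
    have h2 := ((hasDerivAt_id' z).sub_const 1).clog (sub_one_slit h)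
    simpa using h2
  · have h1 : Lg1 j = fun z => Complex.log (1 - z) + Real.pi * I := by funext z; simp [Lg1, hj]
    rw [h1]
    have h2 := (((hasDerivAt_id' z).const_sub 1).clog (one_sub_slit hj h)).add_const (Real.pi * I)
    have h3 : (-1 : ℂ) / (1 - z) = (z - 1)⁻¹ := by
      rw [← neg_sub z 1, neg_div_neg_eq, one_div]
    rw [h3] at h2
    exact h2

lemma log_neg_upper {z : ℂ} (h : 0 < z.im) : Complex.log (-z) + Real.pi * I = Complex.log z := by
  rw [Complex.log, Complex.log, norm_neg, Complex.arg_neg_eq_arg_sub_pi_of_im_pos h]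
  push_cast
  ring

lemma log_neg_lower {z : ℂ} (h : z.im < 0) :
    Complex.log (-z) + Real.pi * I = Complex.log z + 2 * Real.pi * I := by
  rw [Complex.log, Complex.log, norm_neg, Complex.arg_neg_eq_arg_add_pi_of_im_neg h]
  push_cast
  ring

lemma Lg0_upper (j j' : Fin 3) {z : ℂ} (h : 0 < z.im) : Lg0 j z = Lg0 j' z := by
  unfold Lg0
  split_ifs
  · rfl
  · exact log_neg_upper h
  · exact (log_neg_upper h).symm
  · rfl

lemma Lg1_upper (j j' : Fin 3) {z : ℂ} (h : 0 < z.im) : Lg1 j z = Lg1 j' z := by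
  have h1 : Complex.log (1 - z) + Real.pi * I = Complex.log (z - 1) := by
    have := log_neg_upper (z := z - 1) (by simpa using h)
    rwa [neg_sub] at this
  unfold Lg1
  split_ifs
  · rfl
  · exact h1.symm
  · exact h1
  · rfl

lemma norm_exp_real_mul_Lg0 {j : Fin 3} {z : ℂ} (h : z ∈ V j) (α : ℝ) :
    ‖Complex.exp (α * Lg0 j z)‖ = ‖z‖ ^ α := by
  have h1 : (Lg0 j z).re = Real.log ‖z‖ := by
    conv_rhs => rw [← Lg0_exp h]
    rw [Complex.norm_exp, Real.log_exp]
  rw [Complex.norm_exp, Complex.re_ofReal_mul, h1,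
    Real.rpow_def_of_pos (norm_pos_iff.mpr (V_ne h).1), mul_comm]

lemma norm_exp_real_mul_Lg1 {j : Fin 3} {z : ℂ} (h : z ∈ V j) (α : ℝ) :
    ‖Complex.exp (α * Lg1 j z)‖ = ‖z - 1‖ ^ α := by
  have h1 : (Lg1 j z).re = Real.log ‖z - 1‖ := by
    conv_rhs => rw [← Lg1_exp h]
    rw [Complex.norm_exp, Real.log_exp]
  rw [Complex.norm_exp, Complex.re_ofReal_mul, h1,
    Real.rpow_def_of_pos (norm_pos_iff.mpr (sub_ne_zero.mpr (V_ne h).2)), mul_comm]

end Pool.Agent.MSU
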