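import Mathlib
import Pool.Agent.Work.MP_5e5ff1_ag.Unit.Defs
import Pool.Agent.Work.MP_5e5ff1_ag.Unit.Geo

/-! Items (as propositions) of the theorem of Mehta and Seshadri for the line minus three points,
level 1: stable trivial bundle with three full flags. -/

open Matrix Polynomial Filter Topology
open scoped ComplexConjugate ComplexOrder

namespace Pool.Agent.MSU

/-! ### S: the linear system -/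

/-- primitives on star-convex open sets -/
def S_Prim : Prop := ∀ (U : Set ℂ) (b : ℂ), IsOpen U → b ∈ U → StarConvex ℝ b U →
  ∀ f : ℂ → ℂ, DifferentiableOn ℂ f U → ∃ F : ℂ → ℂ, F b = 0 ∧ ∀ z ∈ U, HasDerivAt F (f z) z

/-- linear systems on star-convex open sets -/
def S_Ex : Prop := ∀ (ι : Type) [Fintype ι] [DecidableEq ι] (U : Set ℂ) (b : ℂ), IsOpen U →
  b ∈ U → StarConvex ℝ b U → ∀ A : ℂ → Matrix ι ι ℂ,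
  (∀ i j, DifferentiableOn ℂ (fun z => A z i j) U) →
  ∃ Y : ℂ → Matrix ι ι ℂ, Y b = 1 ∧
    ∀ z ∈ U, ∀ i j, HasDerivAt (fun s => Y s i j) ((A z * Y z) i j) z

/-- a solution matrix which is invertible at one point is invertible everywhere -/
def S_Unit : Prop := ∀ (ι : Type) [Fintype ι] [DecidableEq ι] (U : Set ℂ), IsOpen U →
  IsPreconnected U → ∀ (A Y : ℂ → Matrix ι ι ℂ),
  (∀ i j, DifferentiableOn ℂ (fun z => A z i j) U) →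
  (∀ z ∈ U, ∀ i j, HasDerivAt (fun s => Y s i j) ((A z * Y z) i j) z) →
  ∀ b ∈ U, IsUnit (Y b).det → ∀ z ∈ U, IsUnit (Y z).det

def S_Sol : Prop := ∀ (ι : Type) [Fintype ι] [DecidableEq ι] (B : Fin 3 → Matrix ι ι ℂ)
  (j : Fin 3), Sol B j (YY B j)

def S_Inv : Prop := ∀ (ι : Type) [Fintype ι] [DecidableEq ι] (B : Fin 3 → Matrix ι ι ℂ)
  (j : Fin 3), ∀ z ∈ V j, IsUnit (YY B j z).det

/-- every solution is the fundamental solution times a constant -/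
def S_Uniq : Prop := ∀ (ι κ : Type) [Fintype ι] [DecidableEq ι] [Fintype κ]
  (B : Fin 3 → Matrix ι ι ℂ) (j : Fin 3) (Ω : Set ℂ), IsOpen Ω → IsPreconnected Ω → Ω ⊆ V j →
  ∀ G : ℂ → Matrix ι κ ℂ,
  (∀ z ∈ Ω, ∀ a b, HasDerivAt (fun s => G s a b) ((AB B z * G z) a b) z) →
  ∃ E : Matrix ι κ ℂ, ∀ z ∈ Ω, G z = YY B j z * E

def S_Glue : Prop := ∀ (ι : Type) [Fintype ι] [DecidableEq ι] (B : Fin 3 → Matrix ι ι ℂ)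
  (j j' : Fin 3), (∀ z : ℂ, 0 < z.im → YY B j z = YY B j' z) ∧
    ∀ z : ℂ, z.im < 0 → YY B j' z = YY B j z * ((PP B j)⁻¹ * PP B j')

def S_W : Prop := ∀ (ι : Type) [Fintype ι] [DecidableEq ι] (B Bd : Fin 3 → Matrix ι ι ℂ)
  (j : Fin 3), ∃ W, IsW B Bd j W

def S_WGlue : Prop := ∀ (ι : Type) [Fintype ι] [DecidableEq ι] (B Bd : Fin 3 → Matrix ι ι ℂ)
  (j j' : Fin 3) (W W' : ℂ → Matrix ι ι ℂ), IsW B Bd j W → IsW B Bd j' W' →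
  (∀ z : ℂ, 0 < z.im → W z = W' z) ∧
  ∀ z : ℂ, z.im < 0 → W' z - W' (-Complex.I) =
    ((PP B j)⁻¹ * PP B j')⁻¹ * (W z - W (-Complex.I)) * ((PP B j)⁻¹ * PP B j')

/-- the transport is continuously differentiable in the residues, with the usual derivative -/
def S_PDiff : Prop := ∀ (ι : Type) [Fintype ι] [DecidableEq ι] (j : Fin 3),
  ContDiff ℝ 1 (fun (B : Fin 3 → ι → ι → ℂ) => (fun a b => PP (fun x => Matrix.of (B x)) j a b :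
    ι → ι → ℂ)) ∧
  ∀ (B Bd : Fin 3 → ι → ι → ℂ) (W : ℂ → Matrix ι ι ℂ),
    IsW (fun x => Matrix.of (B x)) (fun x => Matrix.of (Bd x)) j W →
    fderiv ℝ (fun (B : Fin 3 → ι → ι → ℂ) => (fun a b => PP (fun x => Matrix.of (B x)) j a b :
      ι → ι → ℂ)) B Bd
      = fun a b => (PP (fun x => Matrix.of (B x)) j * W (-Complex.I)) a b

def S_ZBlock : Prop := ∀ (r : ℕ) (t : ℝ) (β : Fin 3 → Matrix (Fin r) (Fin r) ℂ) (j : Fin 3),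
  PP (fun x => (t : ℂ) • β x) j = 1 + (t : ℂ) • ZZ j t β

def S_Z0 : Prop := ∀ (r : ℕ) (β : Fin 3 → Matrix (Fin r) (Fin r) ℂ) (j : Fin 3),
  ZZ j 0 β = aa j • β 0 + bb j • β 1

/-! ### L: local analysis at the punctures -/

/-- system with exponentially decaying matrix on a half strip -/
def L_HS : Prop := ∀ (n : ℕ) (a c d δ C : ℝ), 0 < δ → c < d →
  ∀ Φ N : ℂ → Matrix (Fin n) (Fin n) ℂ,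
  (∀ τ : ℂ, τ.re < a → c < τ.im → τ.im < d →
    (∀ i j, HasDerivAt (fun s => Φ s i j) ((N τ * Φ τ) i j) τ) ∧
    (∀ i j, ‖N τ i j‖ ≤ C * Real.exp (δ * τ.re)) ∧ IsUnit (Φ τ).det) →
  ∃ (φ : Matrix (Fin n) (Fin n) ℂ) (C' : ℝ), IsUnit φ.det ∧
    ∀ τ : ℂ, τ.re < a - 1 → c < τ.im → τ.im < d → ∀ i j,
      ‖Φ τ i j - φ i j‖ ≤ C' * Real.exp (δ * τ.re)

/-- function with exponentially decaying derivative on a half strip -/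
def L_HSB : Prop := ∀ (a c d δ C : ℝ), 0 < δ → c < d → ∀ f f' : ℂ → ℂ,
  (∀ τ : ℂ, τ.re < a → c < τ.im → τ.im < d → HasDerivAt f (f' τ) τ ∧
    ‖f' τ‖ ≤ C * Real.exp (δ * τ.re)) →
  ∃ C' : ℝ, ∀ τ : ℂ, τ.re < a - 1 → c < τ.im → τ.im < d → ‖f τ‖ ≤ C'

def L_NF : Prop := ∀ (r : ℕ) (γ : Fin 3 → Matrix (Fin r) (Fin r) ℂ) (w : Fin 3 → Fin r → ℝ)
  (B : Fin 3 → Matrix (Fin r) (Fin r) ℂ), GU γ → Win w → LD γ w B →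
  ∀ x, ∃ φ, LAat γ B x φ

def L_Mon : Prop := ∀ (r : ℕ) (γ B : Fin 3 → Matrix (Fin r) (Fin r) ℂ) (x : Fin 3)
  (φ : Matrix (Fin r) (Fin r) ℂ), GU γ → LAat γ B x φ →
  diagonal (fun i => Complex.exp (-(2 * Real.pi * Complex.I * Rs γ B x i i))) * φ
    = φ * ((PP B x)⁻¹ * PP B (x + 1))

def L_Diag : Prop := ∀ (r : ℕ) (H Q φ : Matrix (Fin r) (Fin r) ℂ) (D : Fin r → ℂ),
  H.PosDef → Qᴴ * H * Q = H → IsUnit φ.det →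
  diagonal (fun i => Complex.exp (-(2 * Real.pi * Complex.I * D i))) * φ = φ * Q →
  (∀ i j, i ≠ j → (D i).re ≠ (D j).re ∧ |(D i).re - (D j).re| < 1) →
  (∀ i, (D i).im = 0) ∧ ∀ i j, i ≠ j → ((φ⁻¹)ᴴ * H * φ⁻¹) i j = 0

def L_Row : Prop := ∀ (r d : ℕ) (γ : Fin 3 → Matrix (Fin r) (Fin r) ℂ) (w : Fin 3 → Fin r → ℝ)
  (B : Fin 3 → Matrix (Fin r) (Fin r) ℂ), GU γ → Win w → LD γ w B →
  ∀ E : Matrix (Fin r) (Fin d) ℂ, RowBd γ w (fun j z => YY B j z * E)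

def L_W : Prop := ∀ (r : ℕ) (γ : Fin 3 → Matrix (Fin r) (Fin r) ℂ) (w : Fin 3 → Fin r → ℝ)
  (B Bd : Fin 3 → Matrix (Fin r) (Fin r) ℂ) (x : Fin 3) (φ : Matrix (Fin r) (Fin r) ℂ),
  GU γ → Win w → LD γ w B → Bd 0 + Bd 1 + Bd 2 = 0 → (∀ a b, b < a → Rs γ Bd x a b = 0) →
  LAat γ B x φ → ∀ Wa Wb, IsW B Bd x Wa → IsW B Bd (x + 1) Wb →
  ∃ C a : ℝ, ∀ τ : ℂ, τ.re < a → ∀ i j,
    (0 < τ.im → τ.im < 2 * Real.pi →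
      ‖(Wa (cz x (Complex.exp τ)) - τ • (φ⁻¹ * diagonal (fun i => Rs γ Bd x i i) * φ)) i j‖ ≤ C) ∧
    (-Real.pi < τ.im → τ.im < Real.pi →
      ‖(Wb (cz x (Complex.exp τ)) - τ • (φ⁻¹ * diagonal (fun i => Rs γ Bd x i i) * φ)) i j‖ ≤ C)

def L_K : Prop := ∀ (r : ℕ) (γ : Fin 3 → Matrix (Fin r) (Fin r) ℂ) (w : Fin 3 → Fin r → ℝ)
  (B Bd : Fin 3 → Matrix (Fin r) (Fin r) ℂ) (H Hm : Matrix (Fin r) (Fin r) ℂ) (x : Fin 3),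
  GU γ → Win w → LD γ w B → UN B H Hm → Bd 0 + Bd 1 + Bd 2 = 0 →
  (∀ a b, b < a → Rs γ Bd x a b = 0) → (∀ a, (Rs γ Bd x a a).re = 0) →
  ∀ Wa Wb, IsW B Bd x Wa → IsW B Bd (x + 1) Wb →
  ∃ C ρ : ℝ, 0 < ρ ∧ ρ ≤ 1 / 2 ∧ ∀ ζ : ℂ, ‖ζ‖ < ρ → ∀ i j,
    (ζ ∈ Sa → ‖((Wa (cz x ζ))ᴴ * H + H * Wa (cz x ζ)) i j‖ ≤ C) ∧
    (ζ ∈ Sb → ‖((Wb (cz x ζ))ᴴ * H + H * Wb (cz x ζ)) i j‖ ≤ C)

/-! ### M: maximum principles -/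

def M_Cls : Prop := ∀ (ι : Type) [Fintype ι] (U : Set ℂ) (f h : ι → ℂ → ℂ), IsOpen U →
  (∀ i, DifferentiableOn ℂ (f i) U) → (∀ i, DifferentiableOn ℂ (h i) U) →
  ContinuousOn (fun z => ∑ i, ‖f i z + conj (h i z)‖ ^ 2) U ∧
  ∀ z ∈ U, LSM (fun z => ∑ i, ‖f i z + conj (h i z)‖ ^ 2) z

def M_Strong : Prop := ∀ (U : Set ℂ) (u : ℂ → ℝ), IsOpen U → IsPreconnected U →
  ContinuousOn u U → (∀ z ∈ U, LSM u z) → ∀ z0 ∈ U, (∀ z ∈ U, u z ≤ u z0) →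
  ∀ z ∈ U, u z = u z0

/-- maximum principle on a punctured disc for functions bounded above -/
def M_Punct : Prop := ∀ (u : ℂ → ℝ) (ρ M C : ℝ), 0 < ρ →
  ContinuousOn u {ζ : ℂ | ζ ≠ 0 ∧ ‖ζ‖ ≤ ρ} → (∀ ζ : ℂ, ζ ≠ 0 → ‖ζ‖ < ρ → LSM u ζ) →
  (∀ ζ : ℂ, ζ ≠ 0 → ‖ζ‖ ≤ ρ → u ζ ≤ C) → (∀ ζ : ℂ, ‖ζ‖ = ρ → u ζ ≤ M) →
  ∀ ζ : ℂ, ζ ≠ 0 → ‖ζ‖ ≤ ρ → u ζ ≤ M

def M_Rigid : Prop := ∀ (ι : Type) [Fintype ι] (U : Set ℂ) (f h : ι → ℂ → ℂ), IsOpen U →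
  (∀ i, DifferentiableOn ℂ (f i) U) → (∀ i, DifferentiableOn ℂ (h i) U) →
  (∀ z ∈ U, ∀ z' ∈ U, ∑ i, ‖f i z + conj (h i z)‖ ^ 2 = ∑ i, ‖f i z' + conj (h i z')‖ ^ 2) →
  ∀ i, ∀ z ∈ U, deriv (f i) z = 0 ∧ deriv (h i) z = 0

def M_SH1 : Prop := ∀ (ι : Type) [Fintype ι] (f h : Fin 3 → ι → ℂ → ℂ),
  (∀ j i, DifferentiableOn ℂ (f j i) (V j)) → (∀ j i, DifferentiableOn ℂ (h j i) (V j)) →
  (∀ j j' : Fin 3, ∀ z : ℂ, z ∈ V j → z ∈ V j' →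
    ∑ i, ‖f j i z + conj (h j i z)‖ ^ 2 = ∑ i, ‖f j' i z + conj (h j' i z)‖ ^ 2) →
  (∀ x : Fin 3, ∃ C ρ : ℝ, 0 < ρ ∧ ρ ≤ 1 / 2 ∧ ∀ ζ : ℂ, ‖ζ‖ < ρ →
    (ζ ∈ Sa → ∑ i, ‖f x i (cz x ζ) + conj (h x i (cz x ζ))‖ ^ 2 ≤ C) ∧
    (ζ ∈ Sb → ∑ i, ‖f (x + 1) i (cz x ζ) + conj (h (x + 1) i (cz x ζ))‖ ^ 2 ≤ C)) →
  ∀ j i, ∀ z ∈ V j, deriv (f j i) z = 0 ∧ deriv (h j i) z = 0

def M_SH2 : Prop := ∀ (ι : Type) [Fintype ι] (f : Fin 3 → ι → ℂ → ℂ) (e : Fin 3 → ℝ),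
  (∀ j i, DifferentiableOn ℂ (f j i) (V j)) →
  (∀ j j' : Fin 3, ∀ z : ℂ, z ∈ V j → z ∈ V j' → ∑ i, ‖f j i z‖ ^ 2 = ∑ i, ‖f j' i z‖ ^ 2) →
  (∀ x : Fin 3, ∃ C ρ : ℝ, 0 < ρ ∧ ρ ≤ 1 / 2 ∧ ∀ ζ : ℂ, ‖ζ‖ < ρ →
    (ζ ∈ Sa → ∀ i, ‖f x i (cz x ζ)‖ ≤ C * ‖ζ‖ ^ (e x)) ∧
    (ζ ∈ Sb → ∀ i, ‖f (x + 1) i (cz x ζ)‖ ≤ C * ‖ζ‖ ^ (e x))) →
  0 < ∑ x, e x → ∀ j i, ∀ z ∈ V j, f j i z = 0

/-- uniform bounds near one puncture, in a frame `R` which may depend on the point -/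
def M_Unif1 : Prop := ∀ (r d : ℕ) (Γ Wm : ℝ), ∃ C : ℝ, ∀ (x : Fin 3)
  (R : ℂ → Matrix (Fin r) (Fin r) ℂ) (w : Fin r → ℝ) (G : Fin 3 → ℂ → Matrix (Fin r) (Fin d) ℂ)
  (Q : Fin 3 → Matrix (Fin d) (Fin d) ℂ), (∀ i, |w i| ≤ Wm) →
  (∀ a b, DifferentiableOn ℂ (fun ζ => R ζ a b) {ζ : ℂ | ζ ≠ 0 ∧ ‖ζ‖ < 1}) →
  (∀ ζ : ℂ, ‖ζ‖ = 1 / 2 → ∀ a b, ‖R ζ a b‖ ≤ Γ) → MV G Q →
  (∃ C' ρ : ℝ, 0 < ρ ∧ ∀ ζ : ℂ, ‖ζ‖ < ρ → (ζ ∈ Sa → ∀ a b,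
      ‖(R ζ * G x (cz x ζ)) a b‖ ≤ C' * ‖ζ‖ ^ (w a)) ∧
    (ζ ∈ Sb → ∀ a b, ‖(R ζ * G (x + 1) (cz x ζ)) a b‖ ≤ C' * ‖ζ‖ ^ (w a))) →
  (∀ ζ : ℂ, ‖ζ‖ = 1 / 2 → (ζ ∈ Sa → ∀ a b, ‖G x (cz x ζ) a b‖ ≤ 1) ∧
    (ζ ∈ Sb → ∀ a b, ‖G (x + 1) (cz x ζ) a b‖ ≤ 1)) →
  ∀ ζ : ℂ, ‖ζ‖ ≤ 1 / 2 →
    (ζ ∈ Sa → ∀ a b, ‖(R ζ * G x (cz x ζ)) a b‖ ≤ C * ‖ζ‖ ^ (w a)) ∧
    (ζ ∈ Sb → ∀ a b, ‖(R ζ * G (x + 1) (cz x ζ)) a b‖ ≤ C * ‖ζ‖ ^ (w a))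

/-- uniform bounds near the punctures from bounds on the compact set `KK` -/
def M_Unif : Prop := ∀ (r d : ℕ) (γ : Fin 3 → Matrix (Fin r) (Fin r) ℂ) (Wm : ℝ), GU γ →
  ∃ C : ℝ, ∀ (w : Fin 3 → Fin r → ℝ) (G : Fin 3 → ℂ → Matrix (Fin r) (Fin d) ℂ)
    (Q : Fin 3 → Matrix (Fin d) (Fin d) ℂ), (∀ x i, |w x i| ≤ Wm) → MV G Q → RowBd γ w G →
    (∀ j, ∀ z ∈ V j, z ∈ KK → ∀ a b, ‖G j z a b‖ ≤ 1) →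
    ∀ (x : Fin 3) (ζ : ℂ), ‖ζ‖ ≤ 1 / 2 →
      (ζ ∈ Sa → ∀ a b, ‖(γ x * G x (cz x ζ)) a b‖ ≤ C * ‖ζ‖ ^ (w x a)) ∧
      (ζ ∈ Sb → ∀ a b, ‖(γ x * G (x + 1) (cz x ζ)) a b‖ ≤ C * ‖ζ‖ ^ (w x a))

/-- local bounds, uniform in the family -/
def M_LocBd : Prop := ∀ (r d : ℕ) (γ : Fin 3 → Matrix (Fin r) (Fin r) ℂ) (Wm C : ℝ), GU γ →
  ∀ j, ∀ z ∈ V j, ∃ ε M : ℝ, 0 < ε ∧
    ∀ (w : Fin 3 → Fin r → ℝ) (G : Fin 3 → ℂ → Matrix (Fin r) (Fin d) ℂ)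
      (Q : Fin 3 → Matrix (Fin d) (Fin d) ℂ), (∀ x i, |w x i| ≤ Wm) → MV G Q →
      (∀ j, ∀ z ∈ V j, z ∈ KK → ∀ a b, ‖G j z a b‖ ≤ 1) →
      (∀ (x : Fin 3) (ζ : ℂ), ‖ζ‖ ≤ 1 / 2 →
        (ζ ∈ Sa → ∀ a b, ‖(γ x * G x (cz x ζ)) a b‖ ≤ C * ‖ζ‖ ^ (w x a)) ∧
        (ζ ∈ Sb → ∀ a b, ‖(γ x * G (x + 1) (cz x ζ)) a b‖ ≤ C * ‖ζ‖ ^ (w x a))) →
      ∀ s ∈ V j, ‖s - z‖ < ε → ∀ a b, ‖G j s a b‖ ≤ M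

/-! ### D: degenerate multivalued matrices -/

def D_Rank : Prop := ∀ (r d k : ℕ) (M : Matrix (Fin r) (Fin d) ℂ),
  (M.rank = k → ∃ (J : Fin k → Fin r) (L : Fin k → Fin d), (M.submatrix J L).det ≠ 0) ∧
  ((∃ (J : Fin k → Fin r) (L : Fin k → Fin d), (M.submatrix J L).det ≠ 0) → k ≤ M.rank)

def D_Rel : Prop := ∀ (r d k : ℕ) (M : Matrix (Fin r) (Fin d) ℂ), M.rank ≤ k →
  (∀ (J J' : Fin k → Fin r) (L L' : Fin k → Fin d),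
    (M.submatrix J L).det * (M.submatrix J' L').det
      = (M.submatrix J L').det * (M.submatrix J' L).det) ∧
  ∀ (J : Fin k → Fin r) (L : Fin k → Fin d) (i : Fin r) (l : Fin d),
    (M.submatrix J L).det * M i l
      = ∑ a, (M.submatrix (Function.update J a i) L).det * M (J a) l

def D_RankAll : Prop := ∀ (r d k : ℕ) (G : Fin 3 → ℂ → Matrix (Fin r) (Fin d) ℂ)
  (Q : Fin 3 → Matrix (Fin d) (Fin d) ℂ), MV G Q → (∀ z : ℂ, 0 < z.im → (G 0 z).rank ≤ k) →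
  ∀ j, ∀ z ∈ V j, (G j z).rank ≤ k

/-- proportional multivalued vectors of moderate growth on a punctured disc: the factor is
meromorphic -/
def D_LM : Prop := ∀ (ι : Type) [Fintype ι] [DecidableEq ι] (ρ C : ℝ) (n : ℕ)
  (fa fb ha hb : ℂ → ι → ℂ) (Θ : Matrix ι ι ℂ), 0 < ρ →
  (∀ i, DifferentiableOn ℂ (fun z => fa z i) (Sa ∩ Metric.ball 0 ρ)) →
  (∀ i, DifferentiableOn ℂ (fun z => fb z i) (Sb ∩ Metric.ball 0 ρ)) →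
  (∀ i, DifferentiableOn ℂ (fun z => ha z i) (Sa ∩ Metric.ball 0 ρ)) →
  (∀ i, DifferentiableOn ℂ (fun z => hb z i) (Sb ∩ Metric.ball 0 ρ)) →
  (∀ z : ℂ, ‖z‖ < ρ → 0 < z.im → fa z = fb z ∧ ha z = hb z) →
  (∀ z : ℂ, ‖z‖ < ρ → z.im < 0 → fb z = fa z ᵥ* Θ ∧ hb z = ha z ᵥ* Θ) →
  (∀ z : ℂ, ‖z‖ < ρ → ∀ i, (z ∈ Sa → ‖fa z i‖ * ‖z‖ ^ n ≤ C ∧ ‖ha z i‖ * ‖z‖ ^ n ≤ C) ∧
    (z ∈ Sb → ‖fb z i‖ * ‖z‖ ^ n ≤ C ∧ ‖hb z i‖ * ‖z‖ ^ n ≤ C)) →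
  (∀ z : ℂ, ‖z‖ < ρ → z ∈ Sa → ∀ i j, ha z i * fa z j = ha z j * fa z i) →
  (∃ z : ℂ, ‖z‖ < ρ ∧ 0 < z.im ∧ fa z ≠ 0) →
  ∃ ρ' : ℝ, 0 < ρ' ∧ ρ' ≤ ρ ∧ ∃ φ ψ : ℂ → ℂ, DifferentiableOn ℂ φ (Metric.ball 0 ρ') ∧
    DifferentiableOn ℂ ψ (Metric.ball 0 ρ') ∧ (∀ z : ℂ, z ≠ 0 → ‖z‖ < ρ' → φ z ≠ 0) ∧
    ∀ z : ℂ, ‖z‖ < ρ' → (z ∈ Sa → φ z • ha z = ψ z • fa z) ∧ (z ∈ Sb → φ z • hb z = ψ z • fb z)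

/-- a meromorphic function on the sphere is rational -/
def D_RAT : Prop := ∀ R : ℂ → ℂ, (∀ z, MeromorphicAt R z) →
  MeromorphicAt (fun ζ => R (-ζ⁻¹)) 0 →
  ∃ D N : ℂ[X], D ≠ 0 ∧ ∀ z, AnalyticAt ℂ R z → D.eval z * R z = N.eval z

/-- the ratios of the minors of a multivalued matrix of rank at most `k` are rational -/
def D_RatMin : Prop := ∀ (r d k : ℕ) (γ : Fin 3 → Matrix (Fin r) (Fin r) ℂ)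
  (w : Fin 3 → Fin r → ℝ) (G : Fin 3 → ℂ → Matrix (Fin r) (Fin d) ℂ)
  (Q : Fin 3 → Matrix (Fin d) (Fin d) ℂ), GU γ → MV G Q → RowBd γ w G →
  (∀ j, ∀ z ∈ V j, (G j z).rank ≤ k) → ∀ J0 : Fin k → Fin r,
  (∃ (z : ℂ) (L : Fin k → Fin d), 0 < z.im ∧ ((G 0 z).submatrix J0 L).det ≠ 0) →
  ∀ J : Fin k → Fin r, ∃ D N : ℂ[X], D ≠ 0 ∧ ∀ j, ∀ z ∈ V j, ∀ L : Fin k → Fin d,
    D.eval z * ((G j z).submatrix J L).det = N.eval z * ((G j z).submatrix J0 L).det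

/-- a degenerate multivalued matrix takes values in an algebraic subbundle -/
def D_Factor : Prop := ∀ (r d : ℕ) (γ : Fin 3 → Matrix (Fin r) (Fin r) ℂ)
  (w : Fin 3 → Fin r → ℝ) (G : Fin 3 → ℂ → Matrix (Fin r) (Fin d) ℂ)
  (Q : Fin 3 → Matrix (Fin d) (Fin d) ℂ), GU γ → MV G Q → RowBd γ w G →
  (∃ z : ℂ, 0 < z.im ∧ G 0 z ≠ 0) → (∀ z : ℂ, 0 < z.im → (G 0 z).rank < r) →
  ∃ k : ℕ, 0 < k ∧ k < r ∧ ∃ W : Matrix (Fin r) (Fin k) ℂ[X],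
    Pool.Agent.Work.MP_5e5ff1_ag.T.IsSub W ∧
    ∃ N : Fin 3 → ℂ → Matrix (Fin k) (Fin d) ℂ, MV N Q ∧
      (∀ j, ∀ z ∈ V j, G j z = W.map (eval z) * N j z) ∧
      ∃ (z : ℂ) (L : Fin k → Fin d), 0 < z.im ∧ ((N 0 z).submatrix id L).det ≠ 0

/-- stability excludes degenerate multivalued matrices -/
def D_Deg : Prop := ∀ (r d : ℕ) (γ : Fin 3 → Matrix (Fin r) (Fin r) ℂ)
  (w : Fin 3 → Fin r → ℝ) (G : Fin 3 → ℂ → Matrix (Fin r) (Fin d) ℂ)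
  (Q : Fin 3 → Matrix (Fin d) (Fin d) ℂ), GU γ → StG γ w → MV G Q → RowBd γ w G →
  (∃ z : ℂ, 0 < z.im ∧ G 0 z ≠ 0) → (∀ z : ℂ, 0 < z.im → (G 0 z).rank < r) → False

def D_Det : Prop := ∀ (r : ℕ) (γ : Fin 3 → Matrix (Fin r) (Fin r) ℂ)
  (w : Fin 3 → Fin r → ℝ) (G : Fin 3 → ℂ → Matrix (Fin r) (Fin r) ℂ)
  (Q : Fin 3 → Matrix (Fin r) (Fin r) ℂ), GU γ → ∑ x, ∑ i, w x i = 0 → MV G Q →
  RowBd γ w G → (∃ z : ℂ, 0 < z.im ∧ (G 0 z).det ≠ 0) → ∀ j, ∀ z ∈ V j, IsUnit (G j z).det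

/-! ### I: injectivity of the linearised equations -/

def I_Inj1 : Prop := ∀ (r : ℕ) (γ : Fin 3 → Matrix (Fin r) (Fin r) ℂ) (w : Fin 3 → Fin r → ℝ)
  (B Bd : Fin 3 → Matrix (Fin r) (Fin r) ℂ) (H Hm Hd Hmd : Matrix (Fin r) (Fin r) ℂ),
  GU γ → Win w → StG γ w → LD γ w B → UN B H Hm → Bd 0 + Bd 1 + Bd 2 = 0 →
  (∀ x a b, b < a → Rs γ Bd x a b = 0) → (∀ x a, (Rs γ Bd x a a).re = 0) →
  Hd.IsHermitian → Hmd.IsHermitian →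
  (∀ j W, IsW B Bd j W → (W (-Complex.I))ᴴ * H + H * W (-Complex.I)
    + (PP B j)ᴴ * Hmd * PP B j = Hd) →
  (∀ x, Bd x = 0) ∧ ∃ s : ℝ, Hd = (s : ℂ) • H ∧ Hmd = (s : ℂ) • Hm

def I_Inj0 : Prop := ∀ (r : ℕ) (γ : Fin 3 → Matrix (Fin r) (Fin r) ℂ) (w : Fin 3 → Fin r → ℝ)
  (β βd : Fin 3 → Matrix (Fin r) (Fin r) ℂ) (H Hd : Matrix (Fin r) (Fin r) ℂ),
  GU γ → (∀ x, StrictMono (w x)) → StG γ w → LD γ w β → H.PosDef →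
  (∀ x, (H * β x).IsHermitian) → βd 0 + βd 1 + βd 2 = 0 →
  (∀ x a b, b < a → Rs γ βd x a b = 0) → (∀ x a, (Rs γ βd x a a).re = 0) →
  Hd.IsHermitian → (∀ x, (H * βd x + Hd * β x).IsHermitian) →
  (∀ x, βd x = 0) ∧ ∃ s : ℝ, Hd = (s : ℂ) • H

/-! ### E: the equations -/

/-- local solvability with parameter -/
def E_IFT : Prop := ∀ (E E' : Type) [NormedAddCommGroup E] [NormedSpace ℝ E]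
  [FiniteDimensional ℝ E] [NormedAddCommGroup E'] [NormedSpace ℝ E'] [FiniteDimensional ℝ E'],
  Module.finrank ℝ E = Module.finrank ℝ E' → ∀ Φ : ℝ × E → E', ContDiff ℝ 1 Φ →
  ∀ (t0 : ℝ) (x0 : E), Φ (t0, x0) = 0 → (∀ v : E, fderiv ℝ Φ (t0, x0) (0, v) = 0 → v = 0) →
  ∀ ε > 0, ∃ δ > 0, ∀ t : ℝ, |t - t0| < δ → ∃ x : E, ‖x - x0‖ < ε ∧ Φ (t, x) = 0

def E_Smooth : Prop := ∀ (r : ℕ) (γ : Fin 3 → Matrix (Fin r) (Fin r) ℂ)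
  (w : Fin 3 → Fin r → ℝ), ContDiff ℝ 1 (FF γ w)

def E_Dec : Prop := ∀ (r : ℕ) (γ : Fin 3 → Matrix (Fin r) (Fin r) ℂ) (w : Fin 3 → Fin r → ℝ)
  (t : ℝ) (x : XT r), 0 < r → GU γ → ∑ x, ∑ i, w x i = 0 → 0 < t → IsS γ w t x →
  LD γ (fun y i => t * w y i) (fun y => (t : ℂ) • bt x y) ∧
  UN (fun y => (t : ℂ) • bt x y) (hm x.2.1) (hm x.2.1 + (t : ℂ) • hm x.2.2) ∧
  (hm x.2.1).trace = 1

def E_Enc : Prop := ∀ (r : ℕ) (γ : Fin 3 → Matrix (Fin r) (Fin r) ℂ) (w : Fin 3 → Fin r → ℝ)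
  (t : ℝ) (B : Fin 3 → Matrix (Fin r) (Fin r) ℂ) (H Hm : Matrix (Fin r) (Fin r) ℂ),
  0 < r → GU γ → 0 < t → LD γ (fun y i => t * w y i) B → UN B H Hm → H.trace = 1 →
  ∃ x : XT r, IsS γ w t x

/-- decoding at `t = 0` -/
def E_Dec0 : Prop := ∀ (r : ℕ) (γ : Fin 3 → Matrix (Fin r) (Fin r) ℂ) (w : Fin 3 → Fin r → ℝ)
  (x : XT r), 0 < r → GU γ → ∑ x, ∑ i, w x i = 0 → IsS γ w 0 x →
  LD γ w (bt x) ∧ (∀ y, (hm x.2.1 * bt x y).IsHermitian) ∧ (hm x.2.1).trace = 1 ∧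
  hm x.2.2 = 0

def E_Ker1 : Prop := ∀ (r : ℕ) (γ : Fin 3 → Matrix (Fin r) (Fin r) ℂ) (w : Fin 3 → Fin r → ℝ)
  (t : ℝ) (x : XT r), 0 < r → GU γ → Win w → ∑ x, ∑ i, w x i = 0 → StG γ w → 0 < t → t ≤ 1 →
  IsS γ w t x → ∀ v : XT r, fderiv ℝ (FF γ w) (t, x) (0, v) = 0 → v = 0

def E_Ker0 : Prop := ∀ (r : ℕ) (γ : Fin 3 → Matrix (Fin r) (Fin r) ℂ) (w : Fin 3 → Fin r → ℝ)
  (x : XT r), 0 < r → GU γ → Win w → ∑ x, ∑ i, w x i = 0 → StG γ w →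
  IsS γ w 0 x → ∀ v : XT r, fderiv ℝ (FF γ w) (0, x) (0, v) = 0 → v = 0

def E_Open : Prop := ∀ (r : ℕ) (γ : Fin 3 → Matrix (Fin r) (Fin r) ℂ) (w : Fin 3 → Fin r → ℝ)
  (t : ℝ), 0 < r → GU γ → Win w → ∑ x, ∑ i, w x i = 0 → StG γ w → 0 ≤ t → t ≤ 1 →
  (∃ x, IsS γ w t x) → ∃ δ > 0, ∀ t' : ℝ, |t' - t| < δ → ∃ x, IsS γ w t' x

/-! ### K: closedness -/

/-- normalised unitary frame -/
def K_Frame : Prop := ∀ (r : ℕ) (γ : Fin 3 → Matrix (Fin r) (Fin r) ℂ) (w : Fin 3 → Fin r → ℝ)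
  (B : Fin 3 → Matrix (Fin r) (Fin r) ℂ) (H Hm : Matrix (Fin r) (Fin r) ℂ), 0 < r → GU γ →
  Win w → LD γ w B → UN B H Hm →
  ∃ (E : Matrix (Fin r) (Fin r) ℂ) (ν : ℝ) (Q : Fin 3 → Matrix (Fin r) (Fin r) ℂ),
    IsUnit E.det ∧ 0 < ν ∧ Eᴴ * H * E = (ν : ℂ) • 1 ∧ MV (fun j z => YY B j z * E) Q ∧
    RowBd γ w (fun j z => YY B j z * E) ∧
    (∀ x, Q x = E⁻¹ * ((PP B x)⁻¹ * PP B (x + 1)) * E) ∧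
    (∀ j, ∀ z ∈ V j, z ∈ KK → ∀ a b, ‖(YY B j z * E) a b‖ ≤ 1) ∧
    ∃ j, ∃ z ∈ V j, z ∈ KK ∧ ∑ a, ∑ b, ‖(YY B j z * E) a b‖ ^ 2 = 1

/-- limits along an ultrafilter -/
def K_Montel : Prop := ∀ (r d : ℕ) (Gn : ℕ → Fin 3 → ℂ → Matrix (Fin r) (Fin d) ℂ)
  (Qn : ℕ → Fin 3 → Matrix (Fin d) (Fin d) ℂ), (∀ n, MV (Gn n) (Qn n)) →
  (∀ j, ∀ z ∈ V j, ∃ ε M : ℝ, 0 < ε ∧
    ∀ n, ∀ s ∈ V j, ‖s - z‖ < ε → ∀ a b, ‖Gn n j s a b‖ ≤ M) →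
  ∀ 𝒰 : Ultrafilter ℕ, ∃ (G : Fin 3 → ℂ → Matrix (Fin r) (Fin d) ℂ)
    (Q : Fin 3 → Matrix (Fin d) (Fin d) ℂ), MV G Q ∧
    (∀ j, ∀ z ∈ V j, ∀ a b, Tendsto (fun n => Gn n j z a b) 𝒰 (𝓝 (G j z a b)) ∧
      Tendsto (fun n => deriv (fun s => Gn n j s a b) z) 𝒰 (𝓝 (deriv (fun s => G j s a b) z))) ∧
    (∀ x a b, Tendsto (fun n => Qn n x a b) 𝒰 (𝓝 (Q x a b))) ∧
    ∀ j, ∀ z ∈ V j, ∀ zn : ℕ → ℂ, Tendsto zn 𝒰 (𝓝 z) → ∀ a b,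
      Tendsto (fun n => Gn n j (zn n) a b) 𝒰 (𝓝 (G j z a b))

/-- closedness, also for a limit of the weights -/
def K_Closed : Prop := ∀ (r : ℕ) (γ : Fin 3 → Matrix (Fin r) (Fin r) ℂ)
  (w : Fin 3 → Fin r → ℝ) (wn : ℕ → Fin 3 → Fin r → ℝ)
  (Bn : ℕ → Fin 3 → Matrix (Fin r) (Fin r) ℂ) (Hn Hmn : ℕ → Matrix (Fin r) (Fin r) ℂ),
  0 < r → GU γ → ∑ x, ∑ i, w x i = 0 → StG γ w → (∀ n, Win (wn n)) →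
  (∀ x i, Tendsto (fun n => wn n x i) atTop (𝓝 (w x i))) →
  (∀ n, LD γ (wn n) (Bn n) ∧ UN (Bn n) (Hn n) (Hmn n) ∧ (Hn n).trace = 1) →
  ∃ (B : Fin 3 → Matrix (Fin r) (Fin r) ℂ) (H Hm : Matrix (Fin r) (Fin r) ℂ),
    LD γ w B ∧ UN B H Hm ∧ H.trace = 1

/-! ### P: the additive problem -/

/-- positivity of the slopes of the functional -/
def Slope {r : ℕ} (γ : Fin 3 → Matrix (Fin r) (Fin r) ℂ) (w : Fin 3 → Fin r → ℝ) : Prop :=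
  ∀ U ∈ Matrix.unitaryGroup (Fin r) ℂ, ∀ x : Fin r → ℝ, ∑ i, x i = 0 → x ≠ 0 →
  ∃ J : Fin 3 → ∀ l : Fin r, Fin (l : ℕ) → Fin r,
    (∀ y l, ((Uᴴ * fc (γ y) l).submatrix (J y l) id).det ≠ 0) ∧
    0 < ∑ y, ∑ l, cf (w y) l * ∑ a, x (J y l a)

def P_Slope : Prop := ∀ (r : ℕ) (γ : Fin 3 → Matrix (Fin r) (Fin r) ℂ)
  (w : Fin 3 → Fin r → ℝ), GU γ → (∀ x, StrictMono (w x)) → ∑ x, ∑ i, w x i = 0 → StG γ w →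
  Slope γ w

def P_Min : Prop := ∀ (r : ℕ) (γ : Fin 3 → Matrix (Fin r) (Fin r) ℂ) (w : Fin 3 → Fin r → ℝ),
  0 < r → GU γ → (∀ x, StrictMono (w x)) → ∑ x, ∑ i, w x i = 0 → Slope γ w →
  ∃ h : Matrix (Fin r) (Fin r) ℂ, h.PosDef ∧
    ∀ h' : Matrix (Fin r) (Fin r) ℂ, h'.PosDef → PsiF γ w h ≤ PsiF γ w h'

/-- equation of the critical points -/
def Crit {r : ℕ} (γ : Fin 3 → Matrix (Fin r) (Fin r) ℂ) (w : Fin 3 → Fin r → ℝ)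
    (h : Matrix (Fin r) (Fin r) ℂ) : Prop :=
  ∑ y, ∑ l, (cf (w y) l : ℂ) • (fc (γ y) l * ((fc (γ y) l)ᴴ * h * fc (γ y) l)⁻¹ * (fc (γ y) l)ᴴ)
    = ((∑ y, tw (w y) : ℝ) : ℂ) • h⁻¹

def P_Crit : Prop := ∀ (r : ℕ) (γ : Fin 3 → Matrix (Fin r) (Fin r) ℂ) (w : Fin 3 → Fin r → ℝ)
  (h : Matrix (Fin r) (Fin r) ℂ), GU γ → h.PosDef →
  (∀ h' : Matrix (Fin r) (Fin r) ℂ, h'.PosDef → PsiF γ w h ≤ PsiF γ w h') → Crit γ w h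

def P_Start : Prop := ∀ (r : ℕ) (γ : Fin 3 → Matrix (Fin r) (Fin r) ℂ)
  (w : Fin 3 → Fin r → ℝ), 0 < r → GU γ → (∀ x, StrictMono (w x)) → ∑ x, ∑ i, w x i = 0 →
  (∃ h : Matrix (Fin r) (Fin r) ℂ, h.PosDef ∧ Crit γ w h) → ∃ x, IsS γ w 0 x

/-! ### T: scaling and assembly -/

/-- in a window of length smaller than one the best minor does not vanish at the point -/
def T_Loc : Prop := ∀ (r k : ℕ) (W : Matrix (Fin r) (Fin k) ℂ[X]) (c : ℂ[X])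
  (p : (Fin k → Fin r) → ℂ[X]) (a : ℂ) (w : Fin r → ℝ), 0 < k → c ≠ 0 →
  (∀ J, (W.submatrix J id).det = c * p J) → (∀ i j, w j - w i < 1) →
  (∃ J, (p J).eval a ≠ 0) → ∀ J, p J ≠ 0 →
  ∃ J', (p J').eval a ≠ 0 ∧ ∑ b, w (J b) - ((p J).rootMultiplicity a : ℝ) ≤ ∑ b, w (J' b)

def T_LocInf : Prop := ∀ (r k : ℕ) (W : Matrix (Fin r) (Fin k) ℂ[X]) (m : ℕ) (w : Fin r → ℝ),
  0 < k → (∀ i j, w j - w i < 1) → (∀ J : Fin k → Fin r, ((W.submatrix J id).det).natDegree ≤ m) →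
  (∃ J : Fin k → Fin r, ((W.submatrix J id).det).coeff m ≠ 0) →
  ∀ J : Fin k → Fin r, (W.submatrix J id).det ≠ 0 →
  ∃ J' : Fin k → Fin r, ((W.submatrix J' id).det).coeff m ≠ 0 ∧
    ∑ b, w (J b) + (((W.submatrix J id).det).natDegree : ℝ) ≤ ∑ b, w (J' b) + m

def T_Scale : Prop := ∀ (r : ℕ) (γ : Fin 3 → Matrix (Fin r) (Fin r) ℂ)
  (w : Fin 3 → Fin r → ℝ), GU γ → Win w → StG γ w → ∀ t : ℝ, 0 < t → t ≤ 1 →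
  StG γ (fun y i => t * w y i)

def T_Path : Prop := ∀ (r : ℕ) (γ : Fin 3 → Matrix (Fin r) (Fin r) ℂ)
  (w : Fin 3 → Fin r → ℝ), 0 < r → GU γ → Win w → ∑ x, ∑ i, w x i = 0 → StG γ w →
  ∃ x, IsS γ w 1 x

/-- from a unitary Fuchsian system to the unitary solution -/
def T_Sol : Prop := ∀ (r : ℕ) (γ : Fin 3 → Matrix (Fin r) (Fin r) ℂ) (w : Fin 3 → Fin r → ℝ)
  (B : Fin 3 → Matrix (Fin r) (Fin r) ℂ) (H Hm : Matrix (Fin r) (Fin r) ℂ), GU γ → Win w →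
  LD γ w B → UN B H Hm → SolG γ w

/-- level 1 of the theorem of Mehta and Seshadri -/
def T_MSB : Prop := ∀ (r : ℕ) (γ : Fin 3 → Matrix (Fin r) (Fin r) ℂ) (w : Fin 3 → Fin r → ℝ),
  GU γ → Win w → ∑ x, ∑ i, w x i = 0 → StG γ w → SolG γ w

end Pool.Agent.MSU
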