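import Pool.Agent.Work.MP_5e5ff1_ag.Unit.ItemPMin

/-! Item P_Crit: the equation of the critical points. -/

open Matrix Polynomial Filter Topology
open scoped ComplexConjugate ComplexOrder

set_option linter.unusedSectionVars false

namespace Pool.Agent.MSU

namespace ItemPCrit

open Pool.Agent.Work.MP_5e5ff1_ag.T (FullRank)

/-- derivative of a determinant -/
theorem hasDerivAt_det {n : Type*} [Fintype n] [DecidableEq n] (A : ℝ → Matrix n n ℂ)
    (A' : Matrix n n ℂ) (s0 : ℝ) (h : ∀ i j, HasDerivAt (fun s => A s i j) (A' i j) s0) :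
    HasDerivAt (fun s => (A s).det) ((adjugate (A s0) * A').trace) s0 := by
  have h1 : HasDerivAt (fun s => ∑ σ : Equiv.Perm n, ((Equiv.Perm.sign σ : ℤ) : ℂ) *
      ∏ i, A s (σ i) i)
      (∑ σ : Equiv.Perm n, ((Equiv.Perm.sign σ : ℤ) : ℂ) *
        ∑ i, (∏ j ∈ Finset.univ.erase i, A s0 (σ j) j) • A' (σ i) i) s0 := by
    refine HasDerivAt.fun_sum fun σ _ => HasDerivAt.const_mul _ ?_
    exact HasDerivAt.fun_finsetProd fun i _ => h (σ i) i
  have e1 : (fun s => (A s).det) = fun s => ∑ σ : Equiv.Perm n, ((Equiv.Perm.sign σ : ℤ) : ℂ) *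
      ∏ i, A s (σ i) i := by
    funext s
    rw [Matrix.det_apply']
  have e2 : (adjugate (A s0) * A').trace = ∑ σ : Equiv.Perm n, ((Equiv.Perm.sign σ : ℤ) : ℂ) *
        ∑ i, (∏ j ∈ Finset.univ.erase i, A s0 (σ j) j) • A' (σ i) i := by
    have e3 : ∀ i, (adjugate (A s0) * A') i i =
        ∑ σ : Equiv.Perm n, ((Equiv.Perm.sign σ : ℤ) : ℂ) *
          ((∏ j ∈ Finset.univ.erase i, A s0 (σ j) j) • A' (σ i) i) := by
      intro i
      have e4 : (adjugate (A s0) * A') i i = (adjugate (A s0) *ᵥ (fun k => A' k i)) i := rfl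
      rw [e4, ← Matrix.cramer_eq_adjugate_mulVec, Matrix.cramer_apply, Matrix.det_apply']
      refine Finset.sum_congr rfl fun σ _ => ?_
      congr 1
      rw [← Finset.mul_prod_erase Finset.univ _ (Finset.mem_univ i), Matrix.updateCol_self,
        smul_eq_mul, mul_comm]
      congr 1
      refine Finset.prod_congr rfl fun j hj => ?_
      rw [Matrix.updateCol_ne (Finset.ne_of_mem_erase hj)]
    unfold Matrix.trace
    simp only [Matrix.diag_apply, e3]
    rw [Finset.sum_comm]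
    simp only [Finset.mul_sum]
  rw [e1, e2]
  exact h1

/-- derivative of the logarithm of a positive determinant -/
theorem hasDerivAt_log_det {n : Type*} [Fintype n] [DecidableEq n] (A : ℝ → Matrix n n ℂ)
    (A' : Matrix n n ℂ) (s0 : ℝ) (h : ∀ i j, HasDerivAt (fun s => A s i j) (A' i j) s0)
    (hp : (A s0).PosDef) :
    HasDerivAt (fun s => Real.log (A s).det.re) (((A s0)⁻¹ * A').trace.re) s0 := by
  have h1 := hasDerivAt_det A A' s0 h
  have hd : 0 < (A s0).det := hp.det_pos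
  obtain ⟨hd1, hd2⟩ := Complex.pos_iff.1 hd
  have hu : IsUnit (A s0).det := isUnit_iff_ne_zero.2 hd.ne'
  have h2 : (adjugate (A s0) * A').trace = (A s0).det * ((A s0)⁻¹ * A').trace := by
    have : adjugate (A s0) = (A s0).det • (A s0)⁻¹ := by
      rw [Matrix.inv_def, smul_smul, Ring.mul_inverse_cancel _ hu, one_smul]
    rw [this, Matrix.smul_mul, Matrix.trace_smul, smul_eq_mul]
  have h3 : HasDerivAt (fun s => (A s).det.re) ((adjugate (A s0) * A').trace.re) s0 :=
    Complex.reCLM.hasFDerivAt.comp_hasDerivAt s0 h1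
  have h4 := h3.log hd1.ne'
  have h5 : ((adjugate (A s0) * A').trace.re) / (A s0).det.re = ((A s0)⁻¹ * A').trace.re := by
    rw [h2, Complex.mul_re, ← hd2, zero_mul, sub_zero]
    exact mul_div_cancel_left₀ _ hd1.ne'
  rw [h5] at h4
  exact h4

/-- a curve of Hermitian matrices -/
noncomputable def hs {r : ℕ} (h N P : Matrix (Fin r) (Fin r) ℂ) (s : ℝ) :
    Matrix (Fin r) (Fin r) ℂ := h + (s : ℂ) • N + ((s : ℂ) ^ 2) • P

theorem hs_entry {r l : ℕ} (B : Matrix (Fin r) (Fin l) ℂ) (h N P : Matrix (Fin r) (Fin r) ℂ)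
    (i j : Fin l) :
    HasDerivAt (fun s : ℝ => (Bᴴ * hs h N P s * B) i j) ((Bᴴ * N * B) i j) 0 := by
  have e1 : ∀ s : ℝ, (Bᴴ * hs h N P s * B) i j =
      (Bᴴ * h * B) i j + (s : ℂ) * (Bᴴ * N * B) i j + (s : ℂ) ^ 2 * (Bᴴ * P * B) i j := by
    intro s
    unfold hs
    rw [Matrix.mul_add, Matrix.mul_add, Matrix.add_mul, Matrix.add_mul, Matrix.mul_smul,
      Matrix.mul_smul, Matrix.smul_mul, Matrix.smul_mul]
    rfl
  simp only [e1]
  have h1 : HasDerivAt (fun s : ℝ => (s : ℂ)) 1 0 := by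
    exact_mod_cast (hasDerivAt_id (0 : ℝ)).ofReal_comp
  have h2 := ((h1.mul_const ((Bᴴ * N * B) i j)).const_add ((Bᴴ * h * B) i j)).add
    ((h1.pow 2).mul_const ((Bᴴ * P * B) i j))
  refine h2.congr_deriv ?_
  simp

theorem hs_zero {r : ℕ} (h N P : Matrix (Fin r) (Fin r) ℂ) : hs h N P 0 = h := by
  unfold hs
  simp

theorem deriv_log {r l : ℕ} (B : Matrix (Fin r) (Fin l) ℂ) (h N P : Matrix (Fin r) (Fin r) ℂ)
    (hp : (Bᴴ * h * B).PosDef) :
    HasDerivAt (fun s : ℝ => Real.log (Bᴴ * hs h N P s * B).det.re)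
      (((Bᴴ * h * B)⁻¹ * (Bᴴ * N * B)).trace.re) 0 := by
  have h1 := hasDerivAt_log_det (fun s : ℝ => Bᴴ * hs h N P s * B) (Bᴴ * N * B) 0
    (hs_entry B h N P) (by rw [hs_zero]; exact hp)
  rw [hs_zero] at h1
  exact h1

/-- near the parameter zero the curve consists of positive definite matrices -/
theorem hs_posDef {r : ℕ} (h N : Matrix (Fin r) (Fin r) ℂ) (hh : h.PosDef)
    (hN : N.IsHermitian) :
    ∃ P, ∀ᶠ s : ℝ in 𝓝 0, (hs h N P s).PosDef := by
  have hu : IsUnit h.det := isUnit_iff_ne_zero.2 hh.det_pos.ne'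
  set X : Matrix (Fin r) (Fin r) ℂ := (1 / 2 : ℂ) • (h⁻¹ * N) with hX
  refine ⟨Xᴴ * h * X, ?_⟩
  have hhH : hᴴ = h := hh.1
  have h1 : h * X = (1 / 2 : ℂ) • N := by
    rw [hX, Matrix.mul_smul, ← Matrix.mul_assoc, Matrix.mul_nonsing_inv h hu, Matrix.one_mul]
  have h2 : Xᴴ * h = (1 / 2 : ℂ) • N := by
    have h3 : (h * X)ᴴ = Xᴴ * h := by rw [conjTranspose_mul, hhH]
    rw [← h3, h1, conjTranspose_smul, hN.eq]
    congr 1
    simp
  clear_value X
  have h4 : ∀ s : ℝ, hs h N (Xᴴ * h * X) s = (1 + (s : ℂ) • X)ᴴ * h * (1 + (s : ℂ) • X) := by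
    intro s
    unfold hs
    have h5 : star (s : ℂ) = (s : ℂ) := Complex.conj_ofReal s
    have h0 : (1 + (s : ℂ) • X)ᴴ = 1 + (s : ℂ) • Xᴴ := by
      rw [conjTranspose_add, conjTranspose_one, conjTranspose_smul, h5]
    rw [h0, Matrix.add_mul, Matrix.one_mul, Matrix.smul_mul, h2, Matrix.mul_add, Matrix.mul_one,
      Matrix.add_mul, Matrix.mul_smul, h1, Matrix.smul_mul, Matrix.mul_smul]
    simp only [Matrix.smul_mul]
    module
  have h8 : ∀ᶠ s : ℝ in 𝓝 0, (1 + (s : ℂ) • X).det ≠ 0 := by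
    have hc : Continuous (fun s : ℝ => (1 + (s : ℂ) • X).det) := by
      refine Continuous.matrix_det (continuous_const.add ?_)
      exact Complex.continuous_ofReal.smul continuous_const
    refine hc.continuousAt.eventually_ne ?_
    simp
  filter_upwards [h8] with s hs'
  rw [h4 s]
  apply Matrix.PosDef.conjTranspose_mul_mul_same hh
  apply Matrix.mulVec_injective_of_isUnit
  rw [Matrix.isUnit_iff_isUnit_det]
  exact isUnit_iff_ne_zero.2 hs'

theorem injective_of_fullRank {r l : ℕ} (B : Matrix (Fin r) (Fin l) ℂ) (h : FullRank B) :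
    Function.Injective B.mulVec := by
  obtain ⟨J, hJ⟩ := h
  have h1 : Function.Injective (B.submatrix J id).mulVec := by
    apply Matrix.mulVec_injective_of_isUnit
    rw [Matrix.isUnit_iff_isUnit_det]
    exact isUnit_iff_ne_zero.2 hJ
  intro v v' hv
  apply h1
  funext i
  exact congrFun hv (J i)

/-- the matrix of the critical equation -/
noncomputable def MM {r : ℕ} (γ : Fin 3 → Matrix (Fin r) (Fin r) ℂ) (w : Fin 3 → Fin r → ℝ)
    (h : Matrix (Fin r) (Fin r) ℂ) : Matrix (Fin r) (Fin r) ℂ :=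
  ∑ y, ∑ l, (cf (w y) l : ℂ) • (fc (γ y) l * ((fc (γ y) l)ᴴ * h * fc (γ y) l)⁻¹ * (fc (γ y) l)ᴴ)
    - ((∑ y, tw (w y) : ℝ) : ℂ) • h⁻¹

theorem MM_herm {r : ℕ} (γ : Fin 3 → Matrix (Fin r) (Fin r) ℂ) (w : Fin 3 → Fin r → ℝ)
    (h : Matrix (Fin r) (Fin r) ℂ) (hh : hᴴ = h) : (MM γ w h)ᴴ = MM γ w h := by
  unfold MM
  rw [conjTranspose_sub, conjTranspose_smul, Matrix.conjTranspose_nonsing_inv, hh]
  congr 1
  · rw [conjTranspose_sum]
    refine Finset.sum_congr rfl fun y _ => ?_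
    rw [conjTranspose_sum]
    refine Finset.sum_congr rfl fun l _ => ?_
    rw [conjTranspose_smul, conjTranspose_mul, conjTranspose_mul, conjTranspose_conjTranspose,
      Matrix.conjTranspose_nonsing_inv, conjTranspose_mul, conjTranspose_mul,
      conjTranspose_conjTranspose, hh]
    have h5 : star (cf (w y) l : ℂ) = (cf (w y) l : ℂ) := Complex.conj_ofReal _
    rw [h5]
    simp only [Matrix.mul_assoc]
  · have h5 : star ((∑ y, tw (w y) : ℝ) : ℂ) = ((∑ y, tw (w y) : ℝ) : ℂ) :=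
      Complex.conj_ofReal _
    rw [h5]

theorem trace_MM {r : ℕ} (γ : Fin 3 → Matrix (Fin r) (Fin r) ℂ) (w : Fin 3 → Fin r → ℝ)
    (h N : Matrix (Fin r) (Fin r) ℂ) :
    (MM γ w h * N).trace.re =
      ∑ y, ∑ l, cf (w y) l * (((fc (γ y) l)ᴴ * h * fc (γ y) l)⁻¹ *
        ((fc (γ y) l)ᴴ * N * fc (γ y) l)).trace.re
      - (∑ y, tw (w y)) * (h⁻¹ * N).trace.re := by
  unfold MM
  rw [Matrix.sub_mul, Matrix.trace_sub, Matrix.smul_mul, Matrix.trace_smul, Complex.sub_re,
    smul_eq_mul, Complex.re_ofReal_mul]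
  congr 1
  rw [Finset.sum_mul, Matrix.trace_sum, Complex.re_sum]
  refine Finset.sum_congr rfl fun y _ => ?_
  rw [Finset.sum_mul, Matrix.trace_sum, Complex.re_sum]
  refine Finset.sum_congr rfl fun l _ => ?_
  rw [Matrix.smul_mul, Matrix.trace_smul, smul_eq_mul, Complex.re_ofReal_mul]
  congr 2
  rw [Matrix.mul_assoc, Matrix.mul_assoc, Matrix.trace_mul_comm]
  simp only [Matrix.mul_assoc]

end ItemPCrit

/-- the critical point equation -/
theorem prf_P_Crit : P_Crit := by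
  intro r γ w h hγ hh hmin
  have hhH : hᴴ = h := hh.1
  set M := ItemPCrit.MM γ w h with hM
  have hMh : Mᴴ = M := ItemPCrit.MM_herm γ w h hhH
  obtain ⟨P, hP⟩ := ItemPCrit.hs_posDef h M hh hMh
  have hfc : ∀ y l, ((fc (γ y) l)ᴴ * h * fc (γ y) l).PosDef := fun y l =>
    hh.conjTranspose_mul_mul_same
      (ItemPCrit.injective_of_fullRank _ (ItemPMin.fc_fullRank (γ y) (hγ y) l))
  have hd : HasDerivAt (fun s : ℝ => PsiF γ w (ItemPCrit.hs h M P s))
      ((M * M).trace.re) 0 := by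
    rw [hM, ItemPCrit.trace_MM, ← hM]
    unfold PsiF
    refine HasDerivAt.sub ?_ ?_
    · refine HasDerivAt.fun_sum fun y _ => HasDerivAt.fun_sum fun l _ => ?_
      exact (ItemPCrit.deriv_log (fc (γ y) l) h M P (hfc y l)).const_mul _
    · have h1 := ItemPCrit.deriv_log (1 : Matrix (Fin r) (Fin r) ℂ) h M P
        (by rw [conjTranspose_one, Matrix.one_mul, Matrix.mul_one]; exact hh)
      simp only [conjTranspose_one, Matrix.one_mul, Matrix.mul_one] at h1
      exact h1.const_mul _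
  have hloc : IsLocalMin (fun s : ℝ => PsiF γ w (ItemPCrit.hs h M P s)) 0 := by
    filter_upwards [hP] with s hs
    rw [ItemPCrit.hs_zero]
    exact hmin _ hs
  have h0 : (M * M).trace.re = 0 := hloc.hasDerivAt_eq_zero hd
  have h1 : (Mᴴ * M).trace.re = ∑ i, ∑ j, Complex.normSq (M j i) := by
    unfold Matrix.trace
    rw [Complex.re_sum]
    refine Finset.sum_congr rfl fun i _ => ?_
    rw [Matrix.diag_apply, Matrix.mul_apply, Complex.re_sum]
    refine Finset.sum_congr rfl fun j _ => ?_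
    rw [Matrix.conjTranspose_apply]
    have : star (M j i) * M j i = (Complex.normSq (M j i) : ℂ) := by
      rw [Complex.normSq_eq_conj_mul_self]
      rfl
    rw [this, Complex.ofReal_re]
  rw [hMh, h0] at h1
  have h2 : M = 0 := by
    ext j i
    have h3 := (Finset.sum_eq_zero_iff_of_nonneg (fun i _ =>
      Finset.sum_nonneg fun j _ => Complex.normSq_nonneg (M j i))).1 h1.symm i (Finset.mem_univ i)
    have h4 := (Finset.sum_eq_zero_iff_of_nonneg (fun j _ =>
      Complex.normSq_nonneg (M j i))).1 h3 j (Finset.mem_univ j)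
    exact Complex.normSq_eq_zero.1 h4
  unfold Crit
  exact sub_eq_zero.1 h2

end Pool.Agent.MSU
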