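import Pool.Agent.Work.MP_5e5ff1_ag.Unit.Stmts
import Pool.Agent.Work.MP_5e5ff1_ag.Unit.Geo

/-! Bounded single valued sums of squares on the plane minus two points are constant. -/

open Matrix Polynomial Filter Topology
open scoped ComplexConjugate ComplexOrder

namespace Pool.Agent.MSU

namespace ItemMSH1

/-- the domain -/
def U0 : Set ℂ := {z | z ≠ 0 ∧ z ≠ 1}

lemma U0_open : IsOpen U0 :=
  (isOpen_ne_fun continuous_id continuous_const).inter
    (isOpen_ne_fun continuous_id continuous_const)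

lemma U0_pre : IsPreconnected U0 := by
  have h1 : U0 = ({0, 1} : Set ℂ)ᶜ := by
    ext z
    simp [U0]
  rw [h1]
  have h2 : (1 : Cardinal) < Module.rank ℝ ℂ := by
    rw [Complex.rank_real_complex]
    exact Cardinal.one_lt_two
  exact (Set.Countable.isPathConnected_compl_of_one_lt_rank h2
    ((Set.toFinite _).countable)).isConnected.isPreconnected

lemma V_sub (j : Fin 3) : V j ⊆ U0 := fun _ hz => V_ne hz

lemma SaSb {ζ : ℂ} (h : ζ ≠ 0) : ζ ∈ Sa ∨ ζ ∈ Sb := by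
  by_cases him : ζ.im = 0
  · have hre : ζ.re ≠ 0 := by
      intro h2
      exact h (Complex.ext h2 him)
    rcases lt_or_gt_of_ne hre with h2 | h2
    · exact Or.inl (Or.inr h2)
    · exact Or.inr (Or.inr h2)
  · exact Or.inl (Or.inl him)

lemma LSM_congr {u v : ℂ → ℝ} {z : ℂ} (h : ∀ᶠ y in 𝓝 z, u y = v y) (hv : LSM v z) : LSM u z := by
  obtain ⟨r0, hr0, hr⟩ := hv
  obtain ⟨r1, hr1, hb⟩ := Metric.eventually_nhds_iff.mp h
  refine ⟨min r0 r1, lt_min hr0 hr1, fun r h0 h1 => ?_⟩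
  have h2 : Real.circleAverage u z r = Real.circleAverage v z r := by
    apply Real.circleAverage_congr_sphere
    intro y hy
    apply hb
    rw [Metric.mem_sphere.mp hy, abs_of_pos h0]
    exact lt_of_lt_of_le h1 (min_le_right _ _)
  rw [h2, h.self_of_nhds]
  exact hr r h0 (lt_of_lt_of_le h1 (min_le_left _ _))

section

variable {ι : Type} [Fintype ι] (f h : Fin 3 → ι → ℂ → ℂ)

/-- the sum on the domain `j` -/
noncomputable def S (j : Fin 3) (z : ℂ) : ℝ := ∑ i, ‖f j i z + conj (h j i z)‖ ^ 2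

open Classical in
/-- the single valued function -/
noncomputable def u (z : ℂ) : ℝ :=
  if z ∈ V 0 then S f h 0 z else if z ∈ V 1 then S f h 1 z else S f h 2 z

variable {f h}

lemma u_eq (hs : ∀ j j' : Fin 3, ∀ z : ℂ, z ∈ V j → z ∈ V j' → S f h j z = S f h j' z)
    {j : Fin 3} {z : ℂ} (hz : z ∈ V j) : u f h z = S f h j z := by
  unfold u
  split_ifs with h0 h1
  · exact hs 0 j z h0 hz
  · exact hs 1 j z h1 hz
  · fin_cases j
    · exact absurd hz h0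
    · exact absurd hz h1
    · rfl

lemma u_cont (hC : M_Cls) (hf : ∀ j i, DifferentiableOn ℂ (f j i) (V j))
    (hh : ∀ j i, DifferentiableOn ℂ (h j i) (V j))
    (hs : ∀ j j' : Fin 3, ∀ z : ℂ, z ∈ V j → z ∈ V j' → S f h j z = S f h j' z) :
    ContinuousOn (u f h) U0 ∧ ∀ z ∈ U0, LSM (u f h) z := by
  have key : ∀ z ∈ U0, ContinuousAt (u f h) z ∧ LSM (u f h) z := by
    intro z hz
    obtain ⟨j, hj⟩ := V_cover hz.1 hz.2
    have h1 := hC ι (V j) (f j) (h j) (V_open j) (hf j) (hh j)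
    have h2 : ∀ᶠ y in 𝓝 z, u f h y = S f h j y := by
      filter_upwards [(V_open j).mem_nhds hj] with y hy
      exact u_eq hs hy
    exact ⟨ContinuousAt.congr (h1.1.continuousAt ((V_open j).mem_nhds hj))
      (h2.mono fun y hy => hy.symm), LSM_congr h2 (h1.2 z hj)⟩
  exact ⟨fun z hz => (key z hz).1.continuousWithinAt, fun z hz => (key z hz).2⟩

lemma cz_U0 (x : Fin 3) {ζ : ℂ} (h0 : ζ ≠ 0) (h1 : ‖ζ‖ < 1) : cz x ζ ∈ U0 := by
  rcases SaSb h0 with h2 | h2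
  · exact V_ne (cz_mem_a x h1 h2)
  · exact V_ne (cz_mem_b x h1 h2)

/-- the part of the sum near a puncture -/
lemma v_part (hC : M_Cls) (hf : ∀ j i, DifferentiableOn ℂ (f j i) (V j))
    (hh : ∀ j i, DifferentiableOn ℂ (h j i) (V j))
    (hs : ∀ j j' : Fin 3, ∀ z : ℂ, z ∈ V j → z ∈ V j' → S f h j z = S f h j' z)
    (x j : Fin 3) (W : Set ℂ) (hW : IsOpen W) (hW0 : ∀ ζ ∈ W, ζ ≠ 0)
    (hWj : ∀ ζ ∈ W, cz x ζ ∈ V j) : ∀ ζ ∈ W, ContinuousAt (fun ζ => u f h (cz x ζ)) ζ ∧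
      LSM (fun ζ => u f h (cz x ζ)) ζ := by
  intro ζ hζ
  have hd : DifferentiableOn ℂ (cz x) W := fun s hs' =>
    (cz_hasDerivAt x (hW0 s hs')).differentiableAt.differentiableWithinAt
  have h1 := hC ι W (fun i s => f j i (cz x s)) (fun i s => h j i (cz x s)) hW
    (fun i => (hf j i).comp hd hWj) (fun i => (hh j i).comp hd hWj)
  have h2 : ∀ᶠ y in 𝓝 ζ, u f h (cz x y)
      = ∑ i, ‖f j i (cz x y) + conj (h j i (cz x y))‖ ^ 2 := by
    filter_upwards [hW.mem_nhds hζ] with y hy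
    exact u_eq hs (hWj y hy)
  exact ⟨ContinuousAt.congr (h1.1.continuousAt (hW.mem_nhds hζ))
      (h2.mono fun y hy => hy.symm), LSM_congr h2 (h1.2 ζ hζ)⟩

lemma v_all (hC : M_Cls) (hf : ∀ j i, DifferentiableOn ℂ (f j i) (V j))
    (hh : ∀ j i, DifferentiableOn ℂ (h j i) (V j))
    (hs : ∀ j j' : Fin 3, ∀ z : ℂ, z ∈ V j → z ∈ V j' → S f h j z = S f h j' z)
    (x : Fin 3) {ζ : ℂ} (h0 : ζ ≠ 0) (h1 : ‖ζ‖ < 1) :
    ContinuousAt (fun ζ => u f h (cz x ζ)) ζ ∧ LSM (fun ζ => u f h (cz x ζ)) ζ := by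
  rcases SaSb h0 with h2 | h2
  · exact v_part hC hf hh hs x x (Sa ∩ Metric.ball 0 1) (Sa_open.inter Metric.isOpen_ball)
      (fun s hs' => Sa_ne hs'.1) (fun s hs' => cz_mem_a x (by simpa using hs'.2) hs'.1)
      ζ ⟨h2, by simpa using h1⟩
  · exact v_part hC hf hh hs x (x + 1) (Sb ∩ Metric.ball 0 1) (Sb_open.inter Metric.isOpen_ball)
      (fun s hs' => Sb_ne hs'.1) (fun s hs' => cz_mem_b x (by simpa using hs'.2) hs'.1)
      ζ ⟨h2, by simpa using h1⟩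

/-- near a puncture the function is dominated by its values on a circle -/
lemma v_bound (hC : M_Cls) (hP : M_Punct) (hf : ∀ j i, DifferentiableOn ℂ (f j i) (V j))
    (hh : ∀ j i, DifferentiableOn ℂ (h j i) (V j))
    (hs : ∀ j j' : Fin 3, ∀ z : ℂ, z ∈ V j → z ∈ V j' → S f h j z = S f h j' z)
    (x : Fin 3) (hb : ∃ C ρ : ℝ, 0 < ρ ∧ ρ ≤ 1 / 2 ∧ ∀ ζ : ℂ, ‖ζ‖ < ρ →
      (ζ ∈ Sa → S f h x (cz x ζ) ≤ C) ∧ (ζ ∈ Sb → S f h (x + 1) (cz x ζ) ≤ C)) :
    ∃ ρ : ℝ, 0 < ρ ∧ ρ ≤ 1 / 4 ∧ ∃ ζ0 : ℂ, ‖ζ0‖ = ρ ∧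
      ∀ ζ : ℂ, ζ ≠ 0 → ‖ζ‖ ≤ ρ → u f h (cz x ζ) ≤ u f h (cz x ζ0) := by
  obtain ⟨C, ρ, hρ, hρ2, hC'⟩ := hb
  refine ⟨ρ / 2, by positivity, by linarith, ?_⟩
  have hcont : ContinuousOn (fun ζ => u f h (cz x ζ)) {ζ : ℂ | ζ ≠ 0 ∧ ‖ζ‖ ≤ ρ / 2} := fun ζ hζ =>
    (v_all hC hf hh hs x hζ.1 (by have := hζ.2; linarith)).1.continuousWithinAt
  have hsph : Metric.sphere (0 : ℂ) (ρ / 2) ⊆ {ζ : ℂ | ζ ≠ 0 ∧ ‖ζ‖ ≤ ρ / 2} := by
    intro ζ hζ
    have h1 : ‖ζ‖ = ρ / 2 := by simpa using hζ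
    refine ⟨?_, h1.le⟩
    rintro rfl
    rw [norm_zero] at h1
    linarith
  have hne : (Metric.sphere (0 : ℂ) (ρ / 2)).Nonempty :=
    ⟨((ρ / 2 : ℝ) : ℂ), by simp [abs_of_pos hρ]⟩
  obtain ⟨ζ0, hζ0, hmax⟩ := (isCompact_sphere (0 : ℂ) (ρ / 2)).exists_isMaxOn hne
    (hcont.mono hsph)
  refine ⟨ζ0, by simpa using hζ0, ?_⟩
  refine hP (fun ζ => u f h (cz x ζ)) (ρ / 2) _ C (by positivity) hcont ?_ ?_ ?_
  · intro ζ h0 h1
    exact (v_all hC hf hh hs x h0 (by linarith)).2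
  · intro ζ h0 h1
    have h2 : ‖ζ‖ < ρ := by linarith
    show u f h (cz x ζ) ≤ C
    rcases SaSb h0 with h3 | h3
    · rw [u_eq hs (cz_mem_a x (by linarith) h3)]
      exact (hC' ζ h2).1 h3
    · rw [u_eq hs (cz_mem_b x (by linarith) h3)]
      exact (hC' ζ h2).2 h3
  · intro ζ h1
    exact hmax (by simpa using h1)

end

end ItemMSH1

open ItemMSH1 in
theorem prf_M_SH1 (hC : M_Cls) (hS : M_Strong) (hP : M_Punct) (hR : M_Rigid) : M_SH1 := by
  intro ι _ f h hf hh hs hb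
  have hs' : ∀ j j' : Fin 3, ∀ z : ℂ, z ∈ V j → z ∈ V j' → S f h j z = S f h j' z := hs
  obtain ⟨hcont, hlsm⟩ := u_cont hC hf hh hs'
  obtain ⟨ρ0, p0, q0, w0, n0, m0⟩ := v_bound hC hP hf hh hs' 0 (hb 0)
  obtain ⟨ρ1, p1, q1, w1, n1, m1⟩ := v_bound hC hP hf hh hs' 1 (hb 1)
  obtain ⟨ρ2, p2, q2, w2, n2, m2⟩ := v_bound hC hP hf hh hs' 2 (hb 2)
  have hinv : 4 ≤ ρ2⁻¹ := by
    rw [le_inv_comm₀ (by norm_num) p2]
    linarith
  let K : Set ℂ := {z | ρ0 ≤ ‖z‖ ∧ ρ1 ≤ ‖z - 1‖ ∧ ‖z‖ ≤ ρ2⁻¹}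
  have hKc : IsCompact K := by
    have h1 : IsClosed K :=
      (isClosed_le continuous_const continuous_norm).inter
        ((isClosed_le continuous_const (continuous_norm.comp (continuous_sub_right (1 : ℂ)))).inter
          (isClosed_le continuous_norm continuous_const))
    have h2 : K ⊆ Metric.closedBall 0 ρ2⁻¹ := fun z hz => by
      simpa using hz.2.2
    exact (isCompact_closedBall (0 : ℂ) ρ2⁻¹).of_isClosed_subset h1 h2
  have hKU : K ⊆ U0 := by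
    intro z hz
    constructor
    · rintro rfl
      have := hz.1
      rw [norm_zero] at this
      linarith
    · rintro rfl
      have := hz.2.1
      rw [sub_self, norm_zero] at this
      linarith
  have hKn : K.Nonempty := by
    refine ⟨-1, ?_, ?_, ?_⟩
    · rw [norm_neg, norm_one]; linarith
    · have : (-1 - 1 : ℂ) = -2 := by norm_num
      rw [this, norm_neg]
      simp
      linarith
    · rw [norm_neg, norm_one]; linarith
  obtain ⟨z0, hz0, hmax⟩ := hKc.exists_isMaxOn hKn (hcont.mono hKU)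
  -- points on the three circles belong to K
  have k0 : cz 0 w0 ∈ K := by
    rw [cz_zero]
    refine ⟨n0.ge, ?_, by linarith⟩
    have h1 : ‖(1 : ℂ)‖ ≤ ‖w0 - 1‖ + ‖w0‖ := by
      have := norm_sub_le (w0) (w0 - 1)
      have h2 : w0 - (w0 - 1) = 1 := by ring
      rw [h2] at this
      linarith
    rw [norm_one] at h1
    linarith
  have k1 : cz 1 w1 ∈ K := by
    rw [cz_one]
    have e1 : (1 : ℂ) + w1 - 1 = w1 := by ring
    have h1 : ‖(1 : ℂ)‖ ≤ ‖1 + w1‖ + ‖w1‖ := by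
      have := norm_sub_le (1 + w1) w1
      have h2 : 1 + w1 - w1 = 1 := by ring
      rw [h2] at this
      linarith
    have h3 := norm_add_le (1 : ℂ) w1
    rw [norm_one] at h1 h3
    refine ⟨by linarith, ?_, by linarith⟩
    rw [e1]
    exact n1.ge
  have k2 : cz 2 w2 ∈ K := by
    have e1 : ‖cz 2 w2‖ = ρ2⁻¹ := by rw [cz_two, norm_neg, norm_inv, n2]
    refine ⟨by rw [e1]; linarith, ?_, e1.le⟩
    have h1 : ‖cz 2 w2‖ ≤ ‖cz 2 w2 - 1‖ + ‖(1 : ℂ)‖ := by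
      have := norm_add_le (cz 2 w2 - 1) 1
      rwa [sub_add_cancel] at this
    rw [norm_one, e1] at h1
    linarith
  have hall : ∀ z ∈ U0, u f h z ≤ u f h z0 := by
    intro z hz
    by_cases hK : z ∈ K
    · exact hmax hK
    · by_cases c0 : ‖z‖ < ρ0
      · have h1 := m0 z hz.1 c0.le
        rw [cz_zero] at h1
        exact h1.trans (hmax k0)
      by_cases c1 : ‖z - 1‖ < ρ1
      · have h1 := m1 (z - 1) (sub_ne_zero.mpr hz.2) c1.le
        have e1 : cz 1 (z - 1) = z := by rw [cz_one]; ring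
        rw [e1] at h1
        exact h1.trans (hmax k1)
      · have c2 : ρ2⁻¹ < ‖z‖ := by
          by_contra hc
          exact hK ⟨not_lt.mp c0, not_lt.mp c1, not_lt.mp hc⟩
        have hz' : -z⁻¹ ≠ 0 := neg_ne_zero.mpr (inv_ne_zero hz.1)
        have hn : ‖-z⁻¹‖ ≤ ρ2 := by
          rw [norm_neg, norm_inv]
          rw [inv_le_comm₀ (norm_pos_iff.mpr hz.1) p2]
          exact c2.le
        have h1 := m2 (-z⁻¹) hz' hn
        have e1 : cz 2 (-z⁻¹) = z := by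
          rw [cz_two, inv_neg, inv_inv, neg_neg]
        rw [e1] at h1
        exact h1.trans (hmax k2)
  have hconst := hS U0 (u f h) U0_open U0_pre hcont hlsm z0 (hKU hz0) hall
  intro j
  refine hR ι (V j) (f j) (h j) (V_open j) (hf j) (hh j) ?_
  intro z hz z' hz'
  have h1 := u_eq hs' hz
  have h2 := u_eq hs' hz'
  have h3 : S f h j z = S f h j z' := by
    rw [← h1, ← h2, hconst z (V_sub j hz), hconst z' (V_sub j hz')]
  exact h3

end Pool.Agent.MSU
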