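import Pool.Agent.Work.MP_5e5ff1_ag.Unit.Stmts
import Pool.Agent.Work.MP_5e5ff1_ag.Unit.Geo

/-! Uniform bound near one puncture from the bound on the circle of radius one half. -/

open Matrix Polynomial Filter Topology
open scoped ComplexConjugate ComplexOrder

namespace Pool.Agent.MSU

namespace ItemMUnif1

lemma SaSb {ζ : ℂ} (h : ζ ≠ 0) : ζ ∈ Sa ∨ ζ ∈ Sb := by
  by_cases him : ζ.im = 0
  · have hre : ζ.re ≠ 0 := by
      intro h2
      exact h (Complex.ext h2 him)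
    rcases lt_or_gt_of_ne hre with h2 | h2
    · exact Or.inl (Or.inr h2)
    · exact Or.inr (Or.inr h2)
  · exact Or.inl (Or.inl him)

lemma LSM_congr {u v : ℂ → ℝ} {z : ℂ} (h : ∀ᶠ y in 𝓝 z, u y = v y) (hv : LSM v z) : LSM u z := by
  obtain ⟨r0, hr0, hr⟩ := hv
  obtain ⟨r1, hr1, hb⟩ := Metric.eventually_nhds_iff.mp h
  refine ⟨min r0 r1, lt_min hr0 hr1, fun r h0 h1 => ?_⟩
  have h2 : Real.circleAverage u z r = Real.circleAverage v z r := by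
    apply Real.circleAverage_congr_sphere
    intro y hy
    apply hb
    rw [Metric.mem_sphere.mp hy, abs_of_pos h0]
    exact lt_of_lt_of_le h1 (min_le_right _ _)
  rw [h2, h.self_of_nhds]
  exact hr r h0 (lt_of_lt_of_le h1 (min_le_left _ _))

lemma row_sq {r d : ℕ} (M : Matrix (Fin r) (Fin d) ℂ) (a : Fin r) :
    ((∑ b, ‖M a b‖ ^ 2 : ℝ) : ℂ) = (M * Mᴴ) a a := by
  rw [Matrix.mul_apply]
  push_cast
  refine Finset.sum_congr rfl (fun b _ => ?_)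
  rw [Matrix.conjTranspose_apply, RCLike.star_def, Complex.mul_conj, Complex.normSq_eq_norm_sq]
  push_cast
  rfl

lemma row_unitary {r d : ℕ} (M : Matrix (Fin r) (Fin d) ℂ) (Q : Matrix (Fin d) (Fin d) ℂ)
    (hQ : Qᴴ * Q = 1) (a : Fin r) : ∑ b, ‖(M * Q) a b‖ ^ 2 = ∑ b, ‖M a b‖ ^ 2 := by
  have h1 : Q * Qᴴ = 1 := mul_eq_one_comm.mp hQ
  have h2 : ((∑ b, ‖(M * Q) a b‖ ^ 2 : ℝ) : ℂ) = ((∑ b, ‖M a b‖ ^ 2 : ℝ) : ℂ) := by
    rw [row_sq, row_sq, conjTranspose_mul, Matrix.mul_assoc, ← Matrix.mul_assoc Q, h1,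
      Matrix.one_mul]
  exact_mod_cast h2

section

variable {r d : ℕ} (x : Fin 3) (R : ℂ → Matrix (Fin r) (Fin r) ℂ) (e : ℝ)
  (G : Fin 3 → ℂ → Matrix (Fin r) (Fin d) ℂ) (a : Fin r)

/-- the weighted square of the row, on the domain `j` -/
noncomputable def S (j : Fin 3) (ζ : ℂ) : ℝ :=
  ‖ζ‖ ^ (-2 * e) * ∑ b, ‖(R ζ * G j (cz x ζ)) a b‖ ^ 2

open Classical in
/-- the single valued function -/
noncomputable def u (ζ : ℂ) : ℝ := if ζ ∈ Sa then S x R e G a x ζ else S x R e G a (x + 1) ζ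

variable {x R e G a}

lemma S_eq {Q : Fin 3 → Matrix (Fin d) (Fin d) ℂ} (hG : MV G Q) {ζ : ℂ} (ha : ζ ∈ Sa)
    (hb : ζ ∈ Sb) : S x R e G a x ζ = S x R e G a (x + 1) ζ := by
  have him : ζ.im ≠ 0 := by
    intro h0
    have h1 : ζ.re < 0 := ha.resolve_left (fun h => h h0)
    have h2 : 0 < ζ.re := hb.resolve_left (fun h => h h0)
    linarith
  unfold S
  rcases lt_or_gt_of_ne him with h1 | h1
  · have h2 := hG.minus x _ (cz_im_neg x h1)
    rw [h2, ← Matrix.mul_assoc, row_unitary _ _ (hG.unit x)]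
  · rw [hG.plus x (x + 1) _ (cz_im_pos x h1)]

lemma u_a {ζ : ℂ} (ha : ζ ∈ Sa) : u x R e G a ζ = S x R e G a x ζ := by
  unfold u
  rw [if_pos ha]

lemma u_b {Q : Fin 3 → Matrix (Fin d) (Fin d) ℂ} (hG : MV G Q) {ζ : ℂ} (hb : ζ ∈ Sb) :
    u x R e G a ζ = S x R e G a (x + 1) ζ := by
  unfold u
  split_ifs with h
  · exact S_eq hG h hb
  · rfl

lemma part (hC : M_Cls) {Q : Fin 3 → Matrix (Fin d) (Fin d) ℂ} (hG : MV G Q)
    (hR : ∀ a b, DifferentiableOn ℂ (fun ζ => R ζ a b) {ζ : ℂ | ζ ≠ 0 ∧ ‖ζ‖ < 1})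
    (j k : Fin 3) (W : Set ℂ) (hW : IsOpen W) (hW1 : ∀ ζ ∈ W, ζ ≠ 0 ∧ ‖ζ‖ < 1)
    (hWk : ∀ ζ ∈ W, ζ ∈ V k) (hWj : ∀ ζ ∈ W, cz x ζ ∈ V j)
    (hu : ∀ ζ ∈ W, u x R e G a ζ = S x R e G a j ζ) :
    ∀ ζ ∈ W, ContinuousAt (u x R e G a) ζ ∧ LSM (u x R e G a) ζ := by
  intro ζ hζ
  have hd : DifferentiableOn ℂ (cz x) W := fun s hs' =>
    (cz_hasDerivAt x (hW1 s hs').1).differentiableAt.differentiableWithinAt
  have hL : DifferentiableOn ℂ (fun s => Complex.exp (((-e : ℝ) : ℂ) * Lg0 k s)) W := by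
    intro s hs
    exact (((Lg0_deriv (hWk s hs)).differentiableAt.const_mul _).cexp).differentiableWithinAt
  have hF : ∀ b, DifferentiableOn ℂ
      (fun s => Complex.exp (((-e : ℝ) : ℂ) * Lg0 k s) * (R s * G j (cz x s)) a b) W := by
    intro b
    refine hL.mul ?_
    have h1 : (fun s => (R s * G j (cz x s)) a b)
        = fun s => ∑ c, R s a c * G j (cz x s) c b := by
      funext s
      rw [Matrix.mul_apply]
    rw [h1]
    refine DifferentiableOn.fun_sum (fun c _ => ?_)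
    refine DifferentiableOn.mul ((hR a c).mono (fun s hs => hW1 s hs)) ?_
    exact (hG.diff j c b).comp hd hWj
  have h1 := hC (Fin d) W
    (fun b s => Complex.exp (((-e : ℝ) : ℂ) * Lg0 k s) * (R s * G j (cz x s)) a b)
    (fun _ _ => 0) hW hF (fun _ => differentiableOn_const _)
  have h2 : ∀ᶠ y in 𝓝 ζ, u x R e G a y
      = ∑ b, ‖Complex.exp (((-e : ℝ) : ℂ) * Lg0 k y) * (R y * G j (cz x y)) a b
          + conj (0 : ℂ)‖ ^ 2 := by
    filter_upwards [hW.mem_nhds hζ] with y hy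
    rw [hu y hy]
    unfold S
    rw [Finset.mul_sum]
    refine Finset.sum_congr rfl (fun b _ => ?_)
    rw [map_zero, add_zero, norm_mul, mul_pow, norm_exp_real_mul_Lg0 (hWk y hy)]
    congr 1
    rw [← Real.rpow_natCast, ← Real.rpow_mul (norm_nonneg _)]
    congr 1
    push_cast
    ring
  exact ⟨ContinuousAt.congr (h1.1.continuousAt (hW.mem_nhds hζ))
      (h2.mono fun y hy => hy.symm), LSM_congr h2 (h1.2 ζ hζ)⟩

lemma all (hC : M_Cls) {Q : Fin 3 → Matrix (Fin d) (Fin d) ℂ} (hG : MV G Q)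
    (hR : ∀ a b, DifferentiableOn ℂ (fun ζ => R ζ a b) {ζ : ℂ | ζ ≠ 0 ∧ ‖ζ‖ < 1})
    {ζ : ℂ} (h0 : ζ ≠ 0) (h1 : ‖ζ‖ < 1) :
    ContinuousAt (u x R e G a) ζ ∧ LSM (u x R e G a) ζ := by
  rcases SaSb h0 with h2 | h2
  · refine part hC hG hR x 0 (Sa ∩ Metric.ball 0 1) (Sa_open.inter Metric.isOpen_ball)
      (fun s hs' => ⟨Sa_ne hs'.1, by simpa using hs'.2⟩)
      (fun s hs' => ?_) (fun s hs' => cz_mem_a x (by simpa using hs'.2) hs'.1)
      (fun s hs' => u_a hs'.1) ζ ⟨h2, by simpa using h1⟩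
    have := cz_mem_a 0 (ζ := s) (by simpa using hs'.2) hs'.1
    rwa [cz_zero] at this
  · refine part hC hG hR (x + 1) 1 (Sb ∩ Metric.ball 0 1) (Sb_open.inter Metric.isOpen_ball)
      (fun s hs' => ⟨Sb_ne hs'.1, by simpa using hs'.2⟩)
      (fun s hs' => ?_) (fun s hs' => cz_mem_b x (by simpa using hs'.2) hs'.1)
      (fun s hs' => u_b hG hs'.1) ζ ⟨h2, by simpa using h1⟩
    have := cz_mem_b 0 (ζ := s) (by simpa using hs'.2) hs'.1
    rw [cz_zero] at this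
    exact this

/-- bound of the weighted square from a bound of the entries -/
lemma S_le {j : Fin 3} {ζ : ℂ} {c : ℝ} (h : ∀ b, ‖(R ζ * G j (cz x ζ)) a b‖ ≤ c) :
    S x R e G a j ζ ≤ ‖ζ‖ ^ (-2 * e) * (d * c ^ 2) := by
  unfold S
  refine mul_le_mul_of_nonneg_left ?_ (Real.rpow_nonneg (norm_nonneg _) _)
  calc ∑ b, ‖(R ζ * G j (cz x ζ)) a b‖ ^ 2 ≤ ∑ _b : Fin d, c ^ 2 :=
        Finset.sum_le_sum (fun b _ => pow_le_pow_left₀ (norm_nonneg _) (h b) 2)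
    _ = d * c ^ 2 := by simp

lemma le_S {j : Fin 3} {ζ : ℂ} (h0 : ζ ≠ 0) {M : ℝ} (h : S x R e G a j ζ ≤ M) (b : Fin d) :
    ‖(R ζ * G j (cz x ζ)) a b‖ ≤ Real.sqrt M * ‖ζ‖ ^ e := by
  have hp : 0 < ‖ζ‖ := norm_pos_iff.mpr h0
  have h1 : ‖(R ζ * G j (cz x ζ)) a b‖ ^ 2 ≤ ∑ b, ‖(R ζ * G j (cz x ζ)) a b‖ ^ 2 :=
    Finset.single_le_sum (f := fun b => ‖(R ζ * G j (cz x ζ)) a b‖ ^ 2)
      (fun b _ => by positivity) (Finset.mem_univ b)
  have h2 : ∑ b, ‖(R ζ * G j (cz x ζ)) a b‖ ^ 2 = S x R e G a j ζ * (‖ζ‖ ^ e) ^ 2 := by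
    unfold S
    rw [mul_right_comm, ← Real.rpow_natCast (‖ζ‖ ^ e), ← Real.rpow_mul hp.le,
      ← Real.rpow_add hp]
    have h3 : -2 * e + e * ((2 : ℕ) : ℝ) = 0 := by push_cast; ring
    rw [h3, Real.rpow_zero, one_mul]
  have hM : 0 ≤ M := by
    refine le_trans ?_ h
    unfold S
    positivity
  have h3 : ‖(R ζ * G j (cz x ζ)) a b‖ ^ 2 ≤ (Real.sqrt M * ‖ζ‖ ^ e) ^ 2 := by
    rw [mul_pow, Real.sq_sqrt hM]
    calc _ ≤ _ := h1
      _ = _ := h2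
      _ ≤ _ := mul_le_mul_of_nonneg_right h (by positivity)
  exact le_of_sq_le_sq h3 (by positivity)

end

end ItemMUnif1

open ItemMUnif1 in
theorem prf_M_Unif1 (hC : M_Cls) (hP : M_Punct) : M_Unif1 := by
  intro r d Γ Wm
  refine ⟨Real.sqrt ((4 : ℝ) ^ Wm * (d * (r * |Γ|) ^ 2)), ?_⟩
  intro x R w G Q hw hR hΓ hG hbd hone
  have key : ∀ a : Fin r, ∀ ζ : ℂ, ζ ≠ 0 → ‖ζ‖ ≤ 1 / 2 →
      u x R (w a) G a ζ ≤ (4 : ℝ) ^ Wm * (d * (r * |Γ|) ^ 2) := by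
    intro a
    have hcont : ContinuousOn (u x R (w a) G a) {ζ : ℂ | ζ ≠ 0 ∧ ‖ζ‖ ≤ 1 / 2} := fun ζ hζ =>
      (all hC hG hR hζ.1 (by have := hζ.2; linarith)).1.continuousWithinAt
    obtain ⟨C', ρ, hρ, hC'⟩ := hbd
    -- the annulus
    have hK : IsCompact {ζ : ℂ | ρ ≤ ‖ζ‖ ∧ ‖ζ‖ ≤ 1 / 2} := by
      have h1 : IsClosed {ζ : ℂ | ρ ≤ ‖ζ‖ ∧ ‖ζ‖ ≤ 1 / 2} :=
        (isClosed_le continuous_const continuous_norm).inter
          (isClosed_le continuous_norm continuous_const)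
      have h2 : {ζ : ℂ | ρ ≤ ‖ζ‖ ∧ ‖ζ‖ ≤ 1 / 2} ⊆ Metric.closedBall 0 (1 / 2) := fun z hz => by
        simpa using hz.2
      exact (isCompact_closedBall (0 : ℂ) (1 / 2)).of_isClosed_subset h1 h2
    have hKs : {ζ : ℂ | ρ ≤ ‖ζ‖ ∧ ‖ζ‖ ≤ 1 / 2} ⊆ {ζ : ℂ | ζ ≠ 0 ∧ ‖ζ‖ ≤ 1 / 2} := by
      intro z hz
      refine ⟨?_, hz.2⟩
      rintro rfl
      have := hz.1
      rw [norm_zero] at this
      linarith
    obtain ⟨B, hB⟩ := hK.bddAbove_image (hcont.mono hKs)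
    refine hP (u x R (w a) G a) (1 / 2) _ (max B (d * C' ^ 2)) (by norm_num) hcont ?_ ?_ ?_
    · intro ζ h0 h1
      exact (all hC hG hR h0 (by linarith)).2
    · intro ζ h0 h1
      rcases lt_or_ge ‖ζ‖ ρ with h2 | h2
      · refine le_trans ?_ (le_max_right _ _)
        have hp : 0 < ‖ζ‖ := norm_pos_iff.mpr h0
        have h4 : ‖ζ‖ ^ (-2 * w a) * (d * (C' * ‖ζ‖ ^ w a) ^ 2) = d * C' ^ 2 := by
          have h5 : ‖ζ‖ ^ (-2 * w a) * (‖ζ‖ ^ w a) ^ 2 = 1 := by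
            rw [← Real.rpow_natCast (‖ζ‖ ^ w a), ← Real.rpow_mul hp.le, ← Real.rpow_add hp]
            have h3 : -2 * w a + w a * ((2 : ℕ) : ℝ) = 0 := by push_cast; ring
            rw [h3, Real.rpow_zero]
          calc _ = d * C' ^ 2 * (‖ζ‖ ^ (-2 * w a) * (‖ζ‖ ^ w a) ^ 2) := by ring
            _ = _ := by rw [h5, mul_one]
        rcases SaSb h0 with h3 | h3
        · rw [u_a h3, ← h4]
          exact S_le (fun b => (hC' ζ h2).1 h3 a b)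
        · rw [u_b hG h3, ← h4]
          exact S_le (fun b => (hC' ζ h2).2 h3 a b)
      · refine le_trans ?_ (le_max_left _ _)
        exact hB (Set.mem_image_of_mem _ ⟨h2, h1⟩)
    · intro ζ h1
      have h0 : ζ ≠ 0 := by
        rintro rfl
        rw [norm_zero] at h1
        norm_num at h1
      have h4 : ‖ζ‖ ^ (-2 * w a) ≤ (4 : ℝ) ^ Wm := by
        have h5 : ‖ζ‖ ^ (-2 * w a) = (4 : ℝ) ^ (w a) := by
          rw [h1, show (-2 * w a) = (2 * w a) * (-1) by ring, Real.rpow_mul (by norm_num),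
            Real.rpow_neg_one, Real.rpow_mul (by norm_num)]
          rw [← Real.inv_rpow (by norm_num)]
          norm_num
        rw [h5]
        exact Real.rpow_le_rpow_of_exponent_le (by norm_num) ((abs_le.mp (hw a)).2)
      have h6 : ∀ j : Fin 3, (∀ c b, ‖G j (cz x ζ) c b‖ ≤ 1) → ∀ b,
          ‖(R ζ * G j (cz x ζ)) a b‖ ≤ r * |Γ| := by
        intro j hj b
        rw [Matrix.mul_apply]
        calc ‖∑ c, R ζ a c * G j (cz x ζ) c b‖ ≤ ∑ c, ‖R ζ a c * G j (cz x ζ) c b‖ :=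
              norm_sum_le _ _
          _ ≤ ∑ _c : Fin r, |Γ| := by
              refine Finset.sum_le_sum (fun c _ => ?_)
              rw [norm_mul]
              calc _ ≤ |Γ| * 1 := mul_le_mul ((hΓ ζ h1 a c).trans (le_abs_self _)) (hj c b)
                    (norm_nonneg _) (abs_nonneg _)
                _ = |Γ| := mul_one _
          _ = r * |Γ| := by simp
      have h7 : ‖ζ‖ ^ (-2 * w a) * (d * (r * |Γ|) ^ 2) ≤ (4 : ℝ) ^ Wm * (d * (r * |Γ|) ^ 2) :=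
        mul_le_mul_of_nonneg_right h4 (by positivity)
      rcases SaSb h0 with h3 | h3
      · rw [u_a h3]
        exact (S_le (h6 x ((hone ζ h1).1 h3))).trans h7
      · rw [u_b hG h3]
        exact (S_le (h6 (x + 1) ((hone ζ h1).2 h3))).trans h7
  intro ζ hζ
  refine ⟨fun h a b => ?_, fun h a b => ?_⟩
  · have h1 := key a ζ (Sa_ne h) hζ
    rw [u_a h] at h1
    exact le_S (Sa_ne h) h1 b
  · have h1 := key a ζ (Sb_ne h) hζ
    rw [u_b hG h] at h1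
    exact le_S (Sb_ne h) h1 b

end Pool.Agent.MSU
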