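import Pool.Agent.Work.MP_5e5ff1_ag.Unit.Stmts
import Pool.Agent.Work.MP_5e5ff1_ag.T.Minors

/-! Item P_Min: existence of a minimum of the functional of Kempf and Ness. -/

open Matrix Polynomial Filter Topology
open scoped ComplexConjugate ComplexOrder

set_option linter.unusedSectionVars false

namespace Pool.Agent.MSU

namespace ItemPMin

open Pool.Agent.Work.MP_5e5ff1_ag.T (det_mul_rect FullRank fullRank_mul fullRank_of_mul)

/-! ### Cauchy and Binet -/

/-- weighted Gram matrix with real diagonal weights -/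
noncomputable def gr {r l : ℕ} (N : Matrix (Fin r) (Fin l) ℂ) (d : Fin r → ℝ) :
    Matrix (Fin l) (Fin l) ℂ := Nᴴ * diagonal (fun i => (d i : ℂ)) * N

theorem gram {r l : ℕ} (N : Matrix (Fin r) (Fin l) ℂ) (d : Fin r → ℝ) :
    ((l.factorial : ℕ) : ℂ) * (gr N d).det =
      ((∑ f : Fin l → Fin r, (∏ a, d (f a)) * ‖(N.submatrix f id).det‖ ^ 2 : ℝ) : ℂ) := by
  set F : (Fin l → Fin r) → ℂ := fun f =>
    (∏ i, (conj (N (f i) i) * (d (f i) : ℂ))) * (N.submatrix f id).det with hF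
  have h0 : (gr N d).det = ∑ f, F f := by
    unfold gr
    rw [det_mul_rect]
    refine Finset.sum_congr rfl fun f _ => ?_
    congr 1
    refine Finset.prod_congr rfl fun i _ => ?_
    rw [Matrix.mul_diagonal, Matrix.conjTranspose_apply]
    rfl
  have h1 : ∀ σ : Equiv.Perm (Fin l), (gr N d).det = ∑ f : Fin l → Fin r, F (f ∘ σ) := by
    intro σ
    rw [h0]
    exact (Equiv.sum_comp (Equiv.arrowCongr σ.symm (Equiv.refl (Fin r))) F).symm
  have h2 : ∀ (σ : Equiv.Perm (Fin l)) (f : Fin l → Fin r), F (f ∘ σ) =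
      ((∏ a, (d (f a) : ℂ)) * (N.submatrix f id).det) *
        (((Equiv.Perm.sign σ : ℤ) : ℂ) * ∏ i, conj (N (f (σ i)) i)) := by
    intro σ f
    rw [hF]
    have e1 : (N.submatrix (f ∘ σ) id).det =
        ((Equiv.Perm.sign σ : ℤ) : ℂ) * (N.submatrix f id).det := by
      rw [← Matrix.det_permute]
      rfl
    have e2 : ∏ i, (d (f (σ i)) : ℂ) = ∏ i, (d (f i) : ℂ) :=
      Equiv.prod_comp σ (fun i => (d (f i) : ℂ))
    simp only [Function.comp_apply]
    rw [Finset.prod_mul_distrib, e2, e1]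
    ring
  have h3 : ∀ f : Fin l → Fin r,
      ∑ σ : Equiv.Perm (Fin l), (((Equiv.Perm.sign σ : ℤ) : ℂ) * ∏ i, conj (N (f (σ i)) i)) =
        conj ((N.submatrix f id).det) := by
    intro f
    rw [Matrix.det_apply', map_sum]
    refine Finset.sum_congr rfl fun σ _ => ?_
    rw [map_mul, map_prod]
    simp
  have h4 : ((l.factorial : ℕ) : ℂ) * (gr N d).det =
      ∑ σ : Equiv.Perm (Fin l), ∑ f : Fin l → Fin r, F (f ∘ σ) := by
    rw [Finset.sum_congr rfl (fun σ _ => (h1 σ).symm), Finset.sum_const, Finset.card_univ,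
      Fintype.card_perm, Fintype.card_fin, nsmul_eq_mul]
  rw [h4, Finset.sum_comm]
  push_cast
  refine Finset.sum_congr rfl fun f _ => ?_
  rw [Finset.sum_congr rfl (fun σ _ => h2 σ f), ← Finset.mul_sum, h3, mul_assoc]
  congr 1
  rw [Complex.mul_conj, Complex.normSq_eq_norm_sq]
  push_cast
  ring

theorem gram_re {r l : ℕ} (N : Matrix (Fin r) (Fin l) ℂ) (d : Fin r → ℝ) :
    (gr N d).det.re =
      (∑ f : Fin l → Fin r, (∏ a, d (f a)) * ‖(N.submatrix f id).det‖ ^ 2) / l.factorial := by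
  have h := gram N d
  have hl : (l.factorial : ℂ) ≠ 0 := by exact_mod_cast l.factorial_ne_zero
  have h1 : (gr N d).det = (((∑ f : Fin l → Fin r, (∏ a, d (f a)) *
      ‖(N.submatrix f id).det‖ ^ 2) / l.factorial : ℝ) : ℂ) := by
    push_cast
    rw [eq_div_iff hl, mul_comm]
    rw [h]
    push_cast
    rfl
  rw [h1, Complex.ofReal_re]

theorem gram_lb {r l : ℕ} (N : Matrix (Fin r) (Fin l) ℂ) (d : Fin r → ℝ) (hd : ∀ i, 0 < d i)
    (J : Fin l → Fin r) :
    (∏ a, d (J a)) * ‖(N.submatrix J id).det‖ ^ 2 / l.factorial ≤ (gr N d).det.re := by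
  rw [gram_re]
  refine div_le_div_of_nonneg_right ?_ (by positivity)
  exact Finset.single_le_sum (f := fun f : Fin l → Fin r =>
    (∏ a, d (f a)) * ‖(N.submatrix f id).det‖ ^ 2)
    (fun f _ => mul_nonneg (Finset.prod_nonneg fun a _ => (hd _).le) (sq_nonneg _))
    (Finset.mem_univ J)

theorem gram_pos {r l : ℕ} (N : Matrix (Fin r) (Fin l) ℂ) (d : Fin r → ℝ) (hd : ∀ i, 0 < d i)
    (hN : FullRank N) : 0 < (gr N d).det.re := by
  obtain ⟨J, hJ⟩ := hN
  refine lt_of_lt_of_le ?_ (gram_lb N d hd J)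
  have h1 : 0 < ‖(N.submatrix J id).det‖ := norm_pos_iff.2 hJ
  have h2 : 0 < ∏ a, d (J a) := Finset.prod_pos fun a _ => hd _
  have h3 : (0 : ℝ) < l.factorial := by exact_mod_cast l.factorial_pos
  positivity

/-! ### the flags -/

theorem fc_fullRank {r : ℕ} (γ : Matrix (Fin r) (Fin r) ℂ) (h : IsUnit γ.det) (l : Fin r) :
    FullRank (fc γ l) := by
  refine fullRank_of_mul (M := γ) ⟨Fin.castLE l.isLt.le, ?_⟩
  have h1 : γ * fc γ l = (1 : Matrix (Fin r) (Fin r) ℂ).submatrix id (Fin.castLE l.isLt.le) := by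
    unfold fc
    have := Matrix.mul_nonsing_inv γ h
    rw [← this]
    rfl
  rw [h1]
  have h2 : ((1 : Matrix (Fin r) (Fin r) ℂ).submatrix id (Fin.castLE l.isLt.le)).submatrix
      (Fin.castLE l.isLt.le) id = 1 := by
    ext i j
    simp [Matrix.one_apply, Fin.ext_iff]
  rw [h2, det_one]
  exact one_ne_zero

theorem unitary_det {r : ℕ} {U : Matrix (Fin r) (Fin r) ℂ} (hU : U ∈ unitaryGroup (Fin r) ℂ) :
    (Uᴴ).det ≠ 0 := by
  have h := (Matrix.mem_unitaryGroup_iff'.1 hU)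
  intro h0
  have h1 : (star U * U).det = 1 := by rw [h, det_one]
  rw [det_mul] at h1
  have h2 : (star U).det = (Uᴴ).det := rfl
  rw [h2, h0, zero_mul] at h1
  exact zero_ne_one h1

theorem Ufc_fullRank {r : ℕ} (γ : Matrix (Fin r) (Fin r) ℂ) (h : IsUnit γ.det) (l : Fin r)
    {U : Matrix (Fin r) (Fin r) ℂ} (hU : U ∈ unitaryGroup (Fin r) ℂ) :
    FullRank (Uᴴ * fc γ l) :=
  fullRank_mul (unitary_det hU) (fc_fullRank γ h l)

theorem cf_nonneg {r : ℕ} (w : Fin r → ℝ) (hw : StrictMono w) (l : Fin r) : 0 ≤ cf w l := by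
  unfold cf
  split_ifs with h
  · have : w ⟨(l : ℕ) - 1, by omega⟩ < w l := hw (by
      rw [Fin.lt_def]
      show (l : ℕ) - 1 < (l : ℕ)
      omega)
    linarith
  · exact le_rfl

theorem cf_sum {r : ℕ} (w : Fin r → ℝ) (hr : 0 < r) :
    ∑ l, cf w l * (l : ℕ) = r * tw w - ∑ i, w i := by
  obtain ⟨n, rfl⟩ : ∃ n, r = n + 1 := ⟨r - 1, by omega⟩
  have h1 : tw w = w (Fin.last n) := by
    unfold tw
    rw [dif_pos hr]
    rfl
  rw [h1, Fin.sum_univ_succ]
  have h2 : ∀ i : Fin n, cf w i.succ * ((i.succ : Fin (n + 1)) : ℕ) =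
      (w i.succ - w i.castSucc) * (i + 1) := by
    intro i
    unfold cf
    rw [dif_pos (by simp)]
    simp only [Fin.val_succ]
    push_cast
    congr 2
  rw [Finset.sum_congr rfl fun i _ => h2 i]
  clear h1 h2 hr
  induction n with
  | zero => simp
  | succ n ih =>
    have ih' := ih (fun i => w i.castSucc)
    rw [Fin.sum_univ_castSucc] 
    rw [Fin.sum_univ_castSucc (f := w)]
    simp only [Fin.val_zero, Nat.cast_zero, mul_zero, zero_add, Fin.succ_castSucc,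
      Fin.val_castSucc, Fin.val_last, Fin.succ_last] at ih' ⊢
    push_cast at ih' ⊢
    rw [ih']
    ring

/-! ### polar coordinates -/

/-- the positive definite matrix with polar coordinates `p` -/
noncomputable def hh {r : ℕ} (p : Matrix (Fin r) (Fin r) ℂ × (Fin r → ℝ)) :
    Matrix (Fin r) (Fin r) ℂ :=
  p.1 * diagonal (fun i => ((Real.exp (p.2 i) : ℝ) : ℂ)) * p.1ᴴ

/-- the Gram determinants in polar coordinates -/
noncomputable def gd {r : ℕ} (γ : Matrix (Fin r) (Fin r) ℂ) (l : Fin r)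
    (p : Matrix (Fin r) (Fin r) ℂ × (Fin r → ℝ)) : ℝ :=
  (gr (p.1ᴴ * fc γ l) (fun i => Real.exp (p.2 i))).det.re

/-- the functional in polar coordinates -/
noncomputable def Ph {r : ℕ} (γ : Fin 3 → Matrix (Fin r) (Fin r) ℂ) (w : Fin 3 → Fin r → ℝ)
    (p : Matrix (Fin r) (Fin r) ℂ × (Fin r → ℝ)) : ℝ :=
  ∑ y, ∑ l, cf (w y) l * Real.log (gd (γ y) l p)

theorem gr_hh {r : ℕ} (γ : Matrix (Fin r) (Fin r) ℂ) (l : Fin r)
    (p : Matrix (Fin r) (Fin r) ℂ × (Fin r → ℝ)) :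
    (fc γ l)ᴴ * hh p * fc γ l = gr (p.1ᴴ * fc γ l) (fun i => Real.exp (p.2 i)) := by
  unfold hh gr
  rw [conjTranspose_mul, conjTranspose_conjTranspose]
  simp only [Matrix.mul_assoc]

theorem det_hh {r : ℕ} (p : Matrix (Fin r) (Fin r) ℂ × (Fin r → ℝ))
    (hU : p.1 ∈ unitaryGroup (Fin r) ℂ) :
    (hh p).det = ((Real.exp (∑ i, p.2 i) : ℝ) : ℂ) := by
  have h1 : p.1.det * (p.1ᴴ).det = 1 := by
    rw [← det_mul]
    have := (Matrix.mem_unitaryGroup_iff.1 hU)
    have e : p.1 * p.1ᴴ = 1 := this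
    rw [e, det_one]
  unfold hh
  rw [det_mul, det_mul, det_diagonal, mul_right_comm, h1, one_mul, Real.exp_sum]
  push_cast
  rfl

theorem gd_pos {r : ℕ} (γ : Matrix (Fin r) (Fin r) ℂ) (hγ : IsUnit γ.det) (l : Fin r)
    (p : Matrix (Fin r) (Fin r) ℂ × (Fin r → ℝ)) (hU : p.1 ∈ unitaryGroup (Fin r) ℂ) :
    0 < gd γ l p :=
  gram_pos _ _ (fun i => Real.exp_pos _) (Ufc_fullRank γ hγ l hU)

/-- values of the functional on scaled matrices -/
theorem PsiF_smul_hh {r : ℕ} (γ : Fin 3 → Matrix (Fin r) (Fin r) ℂ) (w : Fin 3 → Fin r → ℝ)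
    (hr : 0 < r) (hγ : GU γ) (hw : ∑ x, ∑ i, w x i = 0)
    (p : Matrix (Fin r) (Fin r) ℂ × (Fin r → ℝ)) (hU : p.1 ∈ unitaryGroup (Fin r) ℂ)
    (hx : ∑ i, p.2 i = 0) (m : ℝ) :
    PsiF γ w (((Real.exp m : ℝ) : ℂ) • hh p) = Ph γ w p := by
  have h1 : ∀ y l, ((fc (γ y) l)ᴴ * (((Real.exp m : ℝ) : ℂ) • hh p) * fc (γ y) l).det.re =
      Real.exp ((l : ℕ) * m) * gd (γ y) l p := by
    intro y l
    rw [Matrix.mul_smul, Matrix.smul_mul, det_smul, Fintype.card_fin, gr_hh, Real.exp_nat_mul]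
    unfold gd
    rw [← Complex.ofReal_pow, Complex.re_ofReal_mul]
  have h2 : (((Real.exp m : ℝ) : ℂ) • hh p).det.re = Real.exp (r * m) := by
    rw [det_smul, Fintype.card_fin, det_hh p hU, hx, Real.exp_zero, Real.exp_nat_mul,
      ← Complex.ofReal_pow, Complex.ofReal_one, mul_one, Complex.ofReal_re]
  unfold PsiF Ph
  rw [h2, Real.log_exp]
  have h3 : ∀ y l, cf (w y) l * Real.log (Real.exp ((l : ℕ) * m) * gd (γ y) l p) =
      m * (cf (w y) l * (l : ℕ)) + cf (w y) l * Real.log (gd (γ y) l p) := by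
    intro y l
    rw [Real.log_mul (Real.exp_pos _).ne' (gd_pos (γ y) (hγ y) l p hU).ne', Real.log_exp]
    ring
  simp only [h1, h3, Finset.sum_add_distrib, ← Finset.mul_sum]
  have h4 : ∑ y, ∑ l, cf (w y) l * (l : ℕ) = r * ∑ y, tw (w y) := by
    have : ∀ y, ∑ l, cf (w y) l * (l : ℕ) = r * tw (w y) - ∑ i, w y i := fun y =>
      cf_sum (w y) hr
    simp only [this, Finset.sum_sub_distrib, hw, sub_zero, Finset.mul_sum]
  rw [h4]
  ring

theorem PsiF_hh {r : ℕ} (γ : Fin 3 → Matrix (Fin r) (Fin r) ℂ) (w : Fin 3 → Fin r → ℝ)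
    (hr : 0 < r) (hγ : GU γ) (hw : ∑ x, ∑ i, w x i = 0)
    (p : Matrix (Fin r) (Fin r) ℂ × (Fin r → ℝ)) (hU : p.1 ∈ unitaryGroup (Fin r) ℂ)
    (hx : ∑ i, p.2 i = 0) : PsiF γ w (hh p) = Ph γ w p := by
  have := PsiF_smul_hh γ w hr hγ hw p hU hx 0
  rwa [Real.exp_zero, Complex.ofReal_one, one_smul] at this

theorem hh_posDef {r : ℕ} (p : Matrix (Fin r) (Fin r) ℂ × (Fin r → ℝ))
    (hU : p.1 ∈ unitaryGroup (Fin r) ℂ) : (hh p).PosDef := by
  unfold hh
  apply Matrix.PosDef.mul_mul_conjTranspose_same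
  · rw [Matrix.posDef_diagonal_iff]
    intro i
    exact_mod_cast Real.exp_pos _
  · have h1 : p.1 * p.1ᴴ = 1 := Matrix.mem_unitaryGroup_iff.1 hU
    intro a b hab
    have h2 := congrArg (fun v => v ᵥ* p.1ᴴ) hab
    simpa [Matrix.vecMul_vecMul, h1] using h2

/-- every positive definite matrix has polar coordinates -/
theorem exists_polar {r : ℕ} (hr : 0 < r) (h : Matrix (Fin r) (Fin r) ℂ) (hh' : h.PosDef) :
    ∃ (p : Matrix (Fin r) (Fin r) ℂ × (Fin r → ℝ)) (m : ℝ), p.1 ∈ unitaryGroup (Fin r) ℂ ∧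
      ∑ i, p.2 i = 0 ∧ h = ((Real.exp m : ℝ) : ℂ) • hh p := by
  set ev := hh'.1.eigenvalues with hev
  have hpos : ∀ i, 0 < ev i := fun i => hh'.eigenvalues_pos i
  set m := (∑ i, Real.log (ev i)) / r with hm
  have hr' : (r : ℝ) ≠ 0 := by exact_mod_cast hr.ne'
  refine ⟨((hh'.1.eigenvectorUnitary : unitaryGroup (Fin r) ℂ),
    fun i => Real.log (ev i) - m), m, (hh'.1.eigenvectorUnitary).2, ?_, ?_⟩
  · simp only [Finset.sum_sub_distrib, Finset.sum_const, Finset.card_univ, Fintype.card_fin,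
      nsmul_eq_mul]
    rw [hm]
    field_simp
    ring
  · have h1 := hh'.1.spectral_theorem
    rw [Unitary.conjStarAlgAut_apply] at h1
    have h2 : (diagonal (RCLike.ofReal ∘ ev) : Matrix (Fin r) (Fin r) ℂ) =
        ((Real.exp m : ℝ) : ℂ) •
          diagonal (fun i => ((Real.exp (Real.log (ev i) - m) : ℝ) : ℂ)) := by
      ext i j
      by_cases hij : i = j
      · subst hij
        simp only [Matrix.smul_apply, diagonal_apply_eq, Function.comp_apply, smul_eq_mul]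
        rw [← Complex.ofReal_mul, ← Real.exp_add]
        have : m + (Real.log (ev i) - m) = Real.log (ev i) := by ring
        rw [this, Real.exp_log (hpos i)]
        rfl
      · simp [diagonal_apply_ne _ hij]
    rw [h2] at h1
    conv_lhs => rw [h1]
    unfold hh
    rw [Matrix.mul_smul, Matrix.smul_mul]
    rfl

/-! ### continuity and compactness -/

theorem continuous_gd {r : ℕ} (γ : Matrix (Fin r) (Fin r) ℂ) (l : Fin r) :
    Continuous (gd γ l) := by
  unfold gd gr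
  refine Complex.continuous_re.comp (Continuous.matrix_det ?_)
  have h1 : Continuous (fun p : Matrix (Fin r) (Fin r) ℂ × (Fin r → ℝ) => p.1ᴴ * fc γ l) :=
    (Continuous.matrix_conjTranspose continuous_fst).matrix_mul continuous_const
  refine ((h1.matrix_conjTranspose).matrix_mul (Continuous.matrix_diagonal ?_)).matrix_mul h1
  refine continuous_pi fun i => ?_
  exact Complex.continuous_ofReal.comp (Real.continuous_exp.comp
    ((continuous_apply i).comp continuous_snd))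

theorem continuousOn_Ph {r : ℕ} (γ : Fin 3 → Matrix (Fin r) (Fin r) ℂ) (w : Fin 3 → Fin r → ℝ)
    (hγ : GU γ) : ContinuousOn (Ph γ w)
      {p : Matrix (Fin r) (Fin r) ℂ × (Fin r → ℝ) | p.1 ∈ unitaryGroup (Fin r) ℂ} := by
  unfold Ph
  refine continuousOn_finsetSum _ fun y _ => continuousOn_finsetSum _ fun l _ => ?_
  refine continuousOn_const.mul (ContinuousOn.log (continuous_gd (γ y) l).continuousOn ?_)
  intro p hp
  exact (gd_pos (γ y) (hγ y) l p hp).ne'

theorem unitary_compact (r : ℕ) :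
    IsCompact {U : Matrix (Fin r) (Fin r) ℂ | U ∈ unitaryGroup (Fin r) ℂ} := by
  have h1 : IsCompact (Set.univ.pi fun _ : Fin r => Set.univ.pi fun _ : Fin r =>
      Metric.closedBall (0 : ℂ) 1) :=
    isCompact_univ_pi fun _ => isCompact_univ_pi fun _ => isCompact_closedBall _ _
  refine h1.of_isClosed_subset ?_ ?_
  · have h2 : {U : Matrix (Fin r) (Fin r) ℂ | U ∈ unitaryGroup (Fin r) ℂ} =
        {U : Matrix (Fin r) (Fin r) ℂ | U * Uᴴ = 1} := by
      ext U
      exact Matrix.mem_unitaryGroup_iff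
    rw [h2]
    exact isClosed_eq (continuous_id.matrix_mul (continuous_id.matrix_conjTranspose))
      continuous_const
  · intro U hU i _ j _
    rw [mem_closedBall_zero_iff]
    exact entry_norm_bound_of_unitary hU i j

/-- unitary matrix and real vector of sum zero with norm in a compact set -/
theorem compact_K (r : ℕ) (T : Set ℝ) (hT : IsClosed T) (R : ℝ) (hR : T ⊆ Set.Iic R) :
    IsCompact {p : Matrix (Fin r) (Fin r) ℂ × (Fin r → ℝ) |
      p.1 ∈ unitaryGroup (Fin r) ℂ ∧ ∑ i, p.2 i = 0 ∧ ‖p.2‖ ∈ T} := by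
  have h1 : IsCompact {x : Fin r → ℝ | ∑ i, x i = 0 ∧ ‖x‖ ∈ T} := by
    refine (isCompact_closedBall (0 : Fin r → ℝ) R).of_isClosed_subset ?_ ?_
    · refine IsClosed.inter ?_ (hT.preimage continuous_norm)
      exact isClosed_eq (continuous_finsetSum _ fun i _ => continuous_apply i) continuous_const
    · intro x hx
      rw [mem_closedBall_zero_iff]
      exact hR hx.2
  exact (unitary_compact r).prod h1

/-! ### coercivity -/

theorem local_bound {r : ℕ} (γ : Fin 3 → Matrix (Fin r) (Fin r) ℂ) (w : Fin 3 → Fin r → ℝ)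
    (hw : ∀ x, StrictMono (w x)) (hS : Slope γ w)
    (p0 : Matrix (Fin r) (Fin r) ℂ × (Fin r → ℝ)) (hU : p0.1 ∈ unitaryGroup (Fin r) ℂ)
    (hx : ∑ i, p0.2 i = 0) (hx0 : p0.2 ≠ 0) :
    ∃ m C : ℝ, 0 < m ∧ ∀ᶠ p in 𝓝 p0, ∀ s : ℝ, 0 ≤ s → m * s - C ≤ Ph γ w (p.1, s • p.2) := by
  obtain ⟨J, hJ, hJ2⟩ := hS p0.1 hU p0.2 hx hx0
  set σ : Matrix (Fin r) (Fin r) ℂ × (Fin r → ℝ) → ℝ := fun p =>
    ∑ y, ∑ l, cf (w y) l * ∑ a, p.2 (J y l a) with hσ
  set D : Fin 3 → Fin r → Matrix (Fin r) (Fin r) ℂ × (Fin r → ℝ) → ℝ := fun y l p =>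
    ‖((p.1ᴴ * fc (γ y) l).submatrix (J y l) id).det‖ ^ 2 with hD
  have hD0 : ∀ y l, 0 < D y l p0 := fun y l => by
    have := norm_pos_iff.2 (hJ y l)
    simp only [hD]
    positivity
  have hσc : Continuous σ := by
    refine continuous_finsetSum _ fun y _ => continuous_finsetSum _ fun l _ => ?_
    exact continuous_const.mul (continuous_finsetSum _ fun a _ =>
      (continuous_apply _).comp continuous_snd)
  have hDc : ∀ y l, Continuous (D y l) := fun y l => by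
    have h1 : Continuous (fun p : Matrix (Fin r) (Fin r) ℂ × (Fin r → ℝ) =>
        p.1ᴴ * fc (γ y) l) :=
      (Continuous.matrix_conjTranspose continuous_fst).matrix_mul continuous_const
    exact (continuous_norm.comp (Continuous.matrix_det (h1.matrix_submatrix _ _))).pow 2
  have e1 : ∀ᶠ p in 𝓝 p0, σ p0 / 2 < σ p :=
    hσc.continuousAt.eventually_const_lt (half_lt_self hJ2)
  have e2 : ∀ᶠ p in 𝓝 p0, ∀ y l, D y l p0 / 2 < D y l p := by
    rw [eventually_all]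
    intro y
    rw [eventually_all]
    intro l
    exact (hDc y l).continuousAt.eventually_const_lt (half_lt_self (hD0 y l))
  refine ⟨σ p0 / 2, - ∑ y, ∑ l, cf (w y) l * Real.log (D y l p0 / 2 / (l : ℕ).factorial),
    half_pos hJ2, ?_⟩
  filter_upwards [e1, e2] with p h1 h2 s hs
  have h3 : ∀ y l, cf (w y) l * (s * ∑ a, p.2 (J y l a) +
      Real.log (D y l p0 / 2 / (l : ℕ).factorial)) ≤
        cf (w y) l * Real.log (gd (γ y) l (p.1, s • p.2)) := by
    intro y l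
    refine mul_le_mul_of_nonneg_left ?_ (cf_nonneg (w y) (hw y) l)
    have hf : (0 : ℝ) < (l : ℕ).factorial := by exact_mod_cast (l : ℕ).factorial_pos
    have h4 : 0 < D y l p0 / 2 / (l : ℕ).factorial := div_pos (half_pos (hD0 y l)) hf
    have h5 : s * ∑ a, p.2 (J y l a) + Real.log (D y l p0 / 2 / (l : ℕ).factorial) =
        Real.log (Real.exp (s * ∑ a, p.2 (J y l a)) * (D y l p0 / 2 / (l : ℕ).factorial)) := by
      rw [Real.log_mul (Real.exp_pos _).ne' h4.ne', Real.log_exp]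
    rw [h5]
    refine Real.log_le_log (mul_pos (Real.exp_pos _) h4) ?_
    refine le_trans ?_ (gram_lb (p.1ᴴ * fc (γ y) l) (fun i => Real.exp ((s • p.2) i))
      (fun i => Real.exp_pos _) (J y l))
    have h6 : ∏ a, Real.exp ((s • p.2) (J y l a)) = Real.exp (s * ∑ a, p.2 (J y l a)) := by
      rw [← Real.exp_sum, Finset.mul_sum]
      rfl
    rw [h6, ← mul_div_assoc]
    refine div_le_div_of_nonneg_right ?_ hf.le
    exact mul_le_mul_of_nonneg_left (h2 y l).le (Real.exp_pos _).le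
  have h7 : ∑ y, ∑ l, cf (w y) l * (s * ∑ a, p.2 (J y l a) +
      Real.log (D y l p0 / 2 / (l : ℕ).factorial)) =
      s * σ p + ∑ y, ∑ l, cf (w y) l * Real.log (D y l p0 / 2 / (l : ℕ).factorial) := by
    rw [hσ, Finset.mul_sum, ← Finset.sum_add_distrib]
    refine Finset.sum_congr rfl fun y _ => ?_
    rw [Finset.mul_sum, ← Finset.sum_add_distrib]
    refine Finset.sum_congr rfl fun l _ => ?_
    ring
  have h8 : s * σ p + ∑ y, ∑ l, cf (w y) l * Real.log (D y l p0 / 2 / (l : ℕ).factorial) ≤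
      Ph γ w (p.1, s • p.2) := by
    rw [← h7]
    exact Finset.sum_le_sum fun y _ => Finset.sum_le_sum fun l _ => h3 y l
  have h9 : σ p0 / 2 * s ≤ s * σ p := by
    rw [mul_comm]
    exact mul_le_mul_of_nonneg_left h1.le hs
  linarith

theorem coercive {r : ℕ} (γ : Fin 3 → Matrix (Fin r) (Fin r) ℂ) (w : Fin 3 → Fin r → ℝ)
    (hw : ∀ x, StrictMono (w x)) (hS : Slope γ w) :
    ∃ m C : ℝ, 0 < m ∧ ∀ p : Matrix (Fin r) (Fin r) ℂ × (Fin r → ℝ),
      p.1 ∈ unitaryGroup (Fin r) ℂ → ∑ i, p.2 i = 0 → p.2 ≠ 0 → m * ‖p.2‖ - C ≤ Ph γ w p := by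
  set K := {p : Matrix (Fin r) (Fin r) ℂ × (Fin r → ℝ) |
      p.1 ∈ unitaryGroup (Fin r) ℂ ∧ ∑ i, p.2 i = 0 ∧ ‖p.2‖ ∈ ({1} : Set ℝ)} with hK
  have hKc : IsCompact K := compact_K r {1} isClosed_singleton 1 (by
    intro x hx
    rw [Set.mem_singleton_iff] at hx
    exact hx.le)
  have key : ∃ m C : ℝ, 0 < m ∧ ∀ p ∈ K, ∀ s : ℝ, 0 ≤ s → m * s - C ≤ Ph γ w (p.1, s • p.2) := by
    refine hKc.induction_on (p := fun S => ∃ m C : ℝ, 0 < m ∧ ∀ p ∈ S, ∀ s : ℝ, 0 ≤ s →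
      m * s - C ≤ Ph γ w (p.1, s • p.2)) ?_ ?_ ?_ ?_
    · exact ⟨1, 0, one_pos, fun p hp => absurd hp (Set.notMem_empty p)⟩
    · rintro S T hST ⟨m, C, hm, h⟩
      exact ⟨m, C, hm, fun p hp => h p (hST hp)⟩
    · rintro S T ⟨m, C, hm, h⟩ ⟨m', C', hm', h'⟩
      refine ⟨min m m', max C C', lt_min hm hm', ?_⟩
      rintro p (hp | hp) s hs
      · refine le_trans ?_ (h p hp s hs)
        exact sub_le_sub (mul_le_mul_of_nonneg_right (min_le_left _ _) hs) (le_max_left _ _)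
      · refine le_trans ?_ (h' p hp s hs)
        exact sub_le_sub (mul_le_mul_of_nonneg_right (min_le_right _ _) hs) (le_max_right _ _)
    · rintro p0 ⟨hU, hx, h1⟩
      rw [Set.mem_singleton_iff] at h1
      have hx0 : p0.2 ≠ 0 := by
        intro h0
        rw [h0, norm_zero] at h1
        exact zero_ne_one h1
      obtain ⟨m, C, hm, hev⟩ := local_bound γ w hw hS p0 hU hx hx0
      exact ⟨_, mem_nhdsWithin_of_mem_nhds hev, m, C, hm, fun p hp => hp⟩
  obtain ⟨m, C, hm, h⟩ := key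
  refine ⟨m, C, hm, fun p hU hx hx0 => ?_⟩
  have hn : 0 < ‖p.2‖ := norm_pos_iff.2 hx0
  have hmem : ((p.1, ‖p.2‖⁻¹ • p.2) : Matrix (Fin r) (Fin r) ℂ × (Fin r → ℝ)) ∈ K := by
    refine ⟨hU, ?_, ?_⟩
    · simp only [Pi.smul_apply, smul_eq_mul, ← Finset.mul_sum, hx, mul_zero]
    · rw [Set.mem_singleton_iff]
      show ‖‖p.2‖⁻¹ • p.2‖ = 1
      rw [norm_smul, norm_inv, norm_norm, inv_mul_cancel₀ hn.ne']
  have h1 := h _ hmem ‖p.2‖ hn.le
  have h2 : ‖p.2‖ • (‖p.2‖⁻¹ • p.2) = p.2 := by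
    rw [smul_smul, mul_inv_cancel₀ hn.ne', one_smul]
  simp only [h2] at h1
  exact h1

end ItemPMin

/-- existence of a minimum -/
theorem prf_P_Min : P_Min := by
  intro r γ w hr hγ hw hsum hS
  obtain ⟨m, C, hm, hco⟩ := ItemPMin.coercive γ w hw hS
  have hone : (1 : Matrix (Fin r) (Fin r) ℂ) ∈ unitaryGroup (Fin r) ℂ := one_mem _
  set P0 := ItemPMin.Ph γ w (1, 0) with hP0
  set R := max ((P0 + C) / m) 0 with hR
  set K := {p : Matrix (Fin r) (Fin r) ℂ × (Fin r → ℝ) |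
      p.1 ∈ unitaryGroup (Fin r) ℂ ∧ ∑ i, p.2 i = 0 ∧ ‖p.2‖ ∈ Set.Iic R} with hK
  have hKc : IsCompact K := ItemPMin.compact_K r (Set.Iic R) isClosed_Iic R subset_rfl
  have h0K : ((1, 0) : Matrix (Fin r) (Fin r) ℂ × (Fin r → ℝ)) ∈ K := by
    refine ⟨hone, by simp, ?_⟩
    rw [Set.mem_Iic]
    simp only [norm_zero]
    exact le_max_right _ _
  obtain ⟨q, hq, hmin⟩ := hKc.exists_isMinOn ⟨_, h0K⟩
    ((ItemPMin.continuousOn_Ph γ w hγ).mono fun p hp => hp.1)
  refine ⟨ItemPMin.hh q, ItemPMin.hh_posDef q hq.1, fun h' hh' => ?_⟩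
  obtain ⟨p, t, hp1, hp2, rfl⟩ := ItemPMin.exists_polar hr h' hh'
  rw [ItemPMin.PsiF_hh γ w hr hγ hsum q hq.1 hq.2.1,
    ItemPMin.PsiF_smul_hh γ w hr hγ hsum p hp1 hp2 t]
  by_cases hp : ‖p.2‖ ≤ R
  · exact hmin (show p ∈ K from ⟨hp1, hp2, hp⟩)
  · push Not at hp
    have hR0 : 0 ≤ R := le_max_right _ _
    have hne : p.2 ≠ 0 := by
      intro h0
      rw [h0, norm_zero] at hp
      linarith
    have h1 := hco p hp1 hp2 hne
    have h2 : ItemPMin.Ph γ w q ≤ P0 := hmin h0K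
    have h3 : (P0 + C) / m ≤ ‖p.2‖ := (le_max_left _ _).trans hp.le
    rw [div_le_iff₀ hm] at h3
    nlinarith

end Pool.Agent.MSU
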