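import Mathlib
import Pool.Agent.Work.MP_5e5ff1_ag.Bd.B04
import Pool.Agent.Work.MP_5e5ff1_ag.Bd.B09
import Pool.Agent.Work.MP_5e5ff1_ag.Bd.B06
import Pool.Agent.Work.MP_5e5ff1_ag.Unit.ItemMSH1
import Pool.Agent.Work.MP_5e5ff1_ag.Bd.B07
import Pool.Agent.Work.MP_5e5ff1_ag.Unit.ItemMUnif1
import Pool.Agent.Work.MP_5e5ff1_ag.Unit.ItemPCrit
import Pool.Agent.Work.MP_5e5ff1_ag.Unit.ItemPMin
import Pool.Agent.Work.MP_5e5ff1_ag.Bd.B08

/-! Assembly of the items: the theorem of Mehta and Seshadri for stable trivial bundles with three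
full flags on the line minus three points (level 1), without hypotheses. -/

namespace Pool.Agent.MSU

theorem fin_S_Prim : S_Prim := prf_S_Prim
theorem fin_S_Ex : S_Ex := prf_S_Ex fin_S_Prim
theorem fin_S_Unit : S_Unit := prf_S_Unit
theorem fin_S_Sol : S_Sol := prf_S_Sol fin_S_Ex fin_S_Unit
theorem fin_S_Inv : S_Inv := prf_S_Inv fin_S_Sol fin_S_Unit
theorem fin_S_Uniq : S_Uniq := prf_S_Uniq fin_S_Sol fin_S_Inv
theorem fin_S_Glue : S_Glue := prf_S_Glue fin_S_Sol fin_S_Inv fin_S_Uniq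
theorem fin_S_W : S_W := prf_S_W fin_S_Prim fin_S_Sol fin_S_Inv
theorem fin_S_WGlue : S_WGlue := prf_S_WGlue fin_S_Inv fin_S_Glue
theorem fin_S_PDiff : S_PDiff := prf_S_PDiff fin_S_Sol fin_S_Inv
theorem fin_S_ZBlock : S_ZBlock := prf_S_ZBlock fin_S_Sol fin_S_Uniq
theorem fin_S_Z0 : S_Z0 := prf_S_Z0 fin_S_Sol fin_S_Uniq
theorem fin_L_HS : L_HS := prf_L_HS
theorem fin_L_HSB : L_HSB := prf_L_HSB
theorem fin_L_NF : L_NF := prf_L_NF fin_S_Sol fin_S_Inv fin_S_Glue fin_L_HS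
theorem fin_L_Mon : L_Mon := prf_L_Mon fin_S_Glue
theorem fin_L_Diag : L_Diag := prf_L_Diag
theorem fin_L_Row : L_Row := prf_L_Row fin_L_NF
theorem fin_L_W : L_W := prf_L_W fin_S_Sol fin_S_Inv fin_L_HSB
theorem fin_L_K : L_K := prf_L_K fin_S_Inv fin_L_NF fin_L_Mon fin_L_Diag fin_L_W
theorem fin_M_Cls : M_Cls := prf_M_Cls
theorem fin_M_Strong : M_Strong := prf_M_Strong
theorem fin_M_Punct : M_Punct := prf_M_Punct
theorem fin_M_Rigid : M_Rigid := prf_M_Rigid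
theorem fin_M_SH1 : M_SH1 := prf_M_SH1 fin_M_Cls fin_M_Strong fin_M_Punct fin_M_Rigid
theorem fin_M_SH2 : M_SH2 := prf_M_SH2 fin_M_SH1
theorem fin_M_Unif1 : M_Unif1 := prf_M_Unif1 fin_M_Cls fin_M_Punct
theorem fin_M_Unif : M_Unif := prf_M_Unif fin_M_Unif1
theorem fin_M_LocBd : M_LocBd := prf_M_LocBd
theorem fin_D_Rank : D_Rank := prf_D_Rank
theorem fin_D_Rel : D_Rel := prf_D_Rel
theorem fin_D_RankAll : D_RankAll := prf_D_RankAll fin_D_Rank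
theorem fin_D_LM : D_LM := prf_D_LM
theorem fin_D_RAT : D_RAT := prf_D_RAT
theorem fin_D_RatMin : D_RatMin := prf_D_RatMin fin_D_LM fin_D_RAT fin_D_Rel
theorem fin_D_Factor : D_Factor := prf_D_Factor fin_D_Rank fin_D_Rel fin_D_RankAll fin_D_RatMin
theorem fin_D_Deg : D_Deg := prf_D_Deg fin_D_Factor fin_M_SH2
theorem fin_D_Det : D_Det := prf_D_Det fin_M_SH1
theorem fin_I_Inj1 : I_Inj1 := prf_I_Inj1 fin_S_Inv fin_S_Sol fin_S_Glue fin_S_W fin_S_WGlue fin_L_Row fin_L_K fin_M_SH1 fin_D_Deg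
theorem fin_I_Inj0 : I_Inj0 := prf_I_Inj0
theorem fin_E_IFT : E_IFT := prf_E_IFT
theorem fin_E_Smooth : E_Smooth := prf_E_Smooth fin_S_PDiff
theorem fin_E_Dec : E_Dec := prf_E_Dec fin_S_ZBlock
theorem fin_E_Enc : E_Enc := prf_E_Enc fin_S_ZBlock
theorem fin_E_Dec0 : E_Dec0 := prf_E_Dec0 fin_S_Z0
theorem fin_T_Loc : T_Loc := prf_T_Loc
theorem fin_T_LocInf : T_LocInf := prf_T_LocInf fin_T_Loc
theorem fin_T_Scale : T_Scale := prf_T_Scale fin_T_Loc fin_T_LocInf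
theorem fin_E_Ker1 : E_Ker1 := prf_E_Ker1 fin_S_PDiff fin_S_ZBlock fin_E_Smooth fin_E_Dec fin_T_Scale fin_I_Inj1
theorem fin_E_Ker0 : E_Ker0 := prf_E_Ker0 fin_S_Z0 fin_E_Smooth fin_E_Dec0 fin_I_Inj0
theorem fin_E_Open : E_Open := prf_E_Open fin_E_Smooth fin_E_Ker1 fin_E_Ker0 fin_E_IFT
theorem fin_K_Frame : K_Frame := prf_K_Frame fin_S_Sol fin_S_Inv fin_S_Glue fin_L_Row
theorem fin_K_Montel : K_Montel := prf_K_Montel
theorem fin_K_Closed : K_Closed := prf_K_Closed fin_S_Sol fin_S_Inv fin_S_Uniq fin_K_Frame fin_M_Unif fin_M_LocBd fin_K_Montel fin_D_Deg fin_D_Det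
theorem fin_P_Slope : P_Slope := prf_P_Slope
theorem fin_P_Min : P_Min := prf_P_Min
theorem fin_P_Crit : P_Crit := prf_P_Crit
theorem fin_P_Start : P_Start := prf_P_Start fin_S_Z0
theorem fin_T_Path : T_Path := prf_T_Path fin_P_Slope fin_P_Min fin_P_Crit fin_P_Start fin_E_Open fin_E_Dec fin_E_Enc fin_K_Closed fin_T_Scale
theorem fin_T_Sol : T_Sol := prf_T_Sol fin_S_Sol fin_S_Inv fin_S_Glue fin_L_NF fin_L_Mon fin_L_Diag fin_L_Row
theorem fin_T_MSB : T_MSB := prf_T_MSB fin_T_Path fin_E_Dec fin_T_Sol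

/-- level 1 of the theorem of Mehta and Seshadri -/
theorem msb : T_MSB := fin_T_MSB

end Pool.Agent.MSU
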