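import Mathlib
import Pool.Agent.Work.MP_5e5ff1_ag.Bd.B07

/-! Item S_Inv is proved as `Pool.Agent.MSU.prf_S_Inv` in the file of item S_Sol. -/
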